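import Pool.Agent.Run7.h870.RQ.Ex

/-!
# The density of the exponents with `2 ^ x - x` in a class
-/

set_option autoImplicit false
set_option linter.all false

namespace Run7.h870.RQ

open Finset
open scoped Classical

/-- the period -/
def MT (T : Finset ℕ) : ℕ := ∏ p ∈ T, p * (p - 1)

/-- the number of solutions in a period -/
def cT' (T : Finset ℕ) : ℕ := ∏ p ∈ T, (p - 1)

/-- one condition -/
def Hit (A : ℤ) (x₀ L p t : ℕ) : Prop := (p : ℤ) ∣ A + fy (x₀ + t * L)

/-- all conditions -/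
def AH (A : ℤ) (x₀ L : ℕ) (T : Finset ℕ) (t : ℕ) : Prop := ∀ p ∈ T, Hit A x₀ L p t

theorem card_mul {P : ℕ → Prop} {q : ℕ} (hP : ∀ n, P (n + q) ↔ P n) (k : ℕ) :
    ((range (q * k)).filter P).card = ((range q).filter P).card * k := by
  have hper : Function.Periodic P q := fun n => propext (hP n)
  induction k with
  | zero => simp
  | succ k ih =>
    have e : (range (q * (k + 1))).filter P =
        (range (q * k)).filter P ∪ (Ico (q * k) (q * k + q)).filter P := by
      rw [← filter_union]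
      congr 1
      ext n
      rw [mem_union, mem_range, mem_range, mem_Ico, mul_add, mul_one]
      omega
    rw [e, card_union_of_disjoint, ih, Nat.filter_Ico_card_eq_of_periodic _ q P hper,
      Nat.count_eq_card_filter_range]
    · ring
    · apply disjoint_filter_filter
      rw [disjoint_left]
      intro n hn hn'
      rw [mem_range] at hn
      rw [mem_Ico] at hn'
      omega

theorem hit_per (A : ℤ) (x₀ L : ℕ) (hx₀ : 1 ≤ x₀) (p : ℕ) (hp : p.Prime) (m : ℕ) (h1 : p ∣ m) (h2 : p - 1 ∣ m) (t : ℕ) :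
    Hit A x₀ L p (t + m) ↔ Hit A x₀ L p t := by
  unfold Hit
  have h3 := per p hp (m * L) (Dvd.dvd.mul_right h2 L) (x₀ + t * L) (by omega)
  have h4 : (p : ℤ) ∣ ((m * L : ℕ) : ℤ) := by
    have h5 : p ∣ m * L := Dvd.dvd.mul_right h1 L
    exact_mod_cast h5
  have h5 : (p : ℤ) ∣ (A + fy (x₀ + (t + m) * L)) - (A + fy (x₀ + t * L)) := by
    have h6 : (A + fy (x₀ + (t + m) * L)) - (A + fy (x₀ + t * L)) = (2 ^ (x₀ + t * L + m * L) - 2 ^ (x₀ + t * L)) - ((m * L : ℕ) : ℤ) := by
      unfold fy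
      have e : x₀ + (t + m) * L = x₀ + t * L + m * L := by ring
      rw [e]
      push_cast
      ring
    rw [h6]
    exact dvd_sub h3 h4
  exact (dvd_iff_dvd_of_dvd_sub h5)

theorem all_per (A : ℤ) (x₀ L : ℕ) (hx₀ : 1 ≤ x₀) (T : Finset ℕ) (hT : ∀ p ∈ T, p.Prime) (m : ℕ) (hm : MT T ∣ m) (t : ℕ) :
    AH A x₀ L T (t + m) ↔ AH A x₀ L T t := by
  unfold AH
  have h : ∀ p ∈ T, Hit A x₀ L p (t + m) ↔ Hit A x₀ L p t := by
    intro p hp
    have h1 : p * (p - 1) ∣ m := (dvd_prod_of_mem (fun p => p * (p - 1)) hp).trans hm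
    exact hit_per A x₀ L hx₀ p (hT p hp) m ((Dvd.intro _ rfl).trans h1) ((Dvd.intro_left _ rfl).trans h1) t
  constructor
  · exact fun h1 p hp => (h p hp).1 (h1 p hp)
  · exact fun h1 p hp => (h p hp).2 (h1 p hp)

/-- the residue modulo `p` runs through all classes -/
theorem one_s (A : ℤ) (x₀ L : ℕ) (hx₀ : 1 ≤ x₀) (p : ℕ) (hp : p.Prime) (m : ℕ) (h2 : p - 1 ∣ m) (h3 : ¬ p ∣ m) (h4 : ¬ p ∣ L) (v : ℕ) :
    ((range p).filter (fun s => Hit A x₀ L p (s * m + v))).card = 1 := by
  have hp0 : 0 < p := hp.pos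
  have hpi : Prime (p : ℤ) := Nat.prime_iff_prime_int.1 hp
  -- the value
  have key : ∀ s : ℕ, Hit A x₀ L p (s * m + v) ↔ (p : ℤ) ∣ (A + fy (x₀ + v * L)) - s * ((m : ℤ) * L) := by
    intro s
    unfold Hit
    have h5 := per p hp (s * m * L) (Dvd.dvd.mul_right (Dvd.dvd.mul_left h2 s) L) (x₀ + v * L) (by omega)
    have h6 : (p : ℤ) ∣ (A + fy (x₀ + (s * m + v) * L)) - ((A + fy (x₀ + v * L)) - s * ((m : ℤ) * L)) := by
      have h7 : (A + fy (x₀ + (s * m + v) * L)) - ((A + fy (x₀ + v * L)) - s * ((m : ℤ) * L)) = 2 ^ (x₀ + v * L + s * m * L) - 2 ^ (x₀ + v * L) := by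
        unfold fy
        have e : x₀ + (s * m + v) * L = x₀ + v * L + s * m * L := by ring
        rw [e]
        push_cast
        ring
      rw [h7]
      exact h5
    exact dvd_iff_dvd_of_dvd_sub h6
  have hmL : ¬ (p : ℤ) ∣ (m : ℤ) * L := by
    intro h
    rcases hpi.dvd_or_dvd h with h | h
    · exact h3 (by exact_mod_cast h)
    · exact h4 (by exact_mod_cast h)
  have hcop : IsCoprime ((m : ℤ) * L) (p : ℤ) := by
    rw [isCoprime_comm]
    exact (Prime.coprime_iff_not_dvd hpi).2 hmL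
  obtain ⟨a, b, hab⟩ := hcop
  obtain ⟨C, hC⟩ : ∃ C, C = A + fy (x₀ + v * L) := ⟨_, rfl⟩
  rw [card_eq_one]
  refine ⟨((a * C) % p).toNat, ?_⟩
  have hpz : (0 : ℤ) < p := by exact_mod_cast hp0
  have h0 := Int.emod_nonneg (a * C) hpz.ne'
  have h1 := Int.emod_lt_of_pos (a * C) hpz
  ext s
  rw [mem_filter, mem_range, mem_singleton, key, ← hC]
  have hs : (p : ℤ) ∣ C - s * ((m : ℤ) * L) ↔ (p : ℤ) ∣ s - a * C := by
    constructor
    · intro h
      have h5 : (s : ℤ) - a * C = -(a * (C - s * ((m : ℤ) * L))) + p * (b * s) := by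
        linear_combination (-(s : ℤ)) * hab
      rw [h5]
      exact dvd_add ((Dvd.dvd.mul_left h a).neg_right) (Dvd.intro _ rfl)
    · intro h
      have h5 : C - s * ((m : ℤ) * L) = -((m : ℤ) * L) * (s - a * C) + p * (b * C) := by
        linear_combination (-C) * hab
      rw [h5]
      exact dvd_add (Dvd.dvd.mul_left h _) (Dvd.intro _ rfl)
  rw [hs]
  constructor
  · rintro ⟨h5, h6⟩
    have h7 : (s : ℤ) % p = (a * C) % p := (Int.modEq_iff_dvd.2 h6).symm
    rw [Int.emod_eq_of_lt (Int.natCast_nonneg s) (by exact_mod_cast h5)] at h7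
    omega
  · intro h5
    have h6 : (s : ℤ) = (a * C) % p := by omega
    refine ⟨by omega, ?_⟩
    rw [h6]
    have := Int.emod_add_mul_ediv (a * C) p
    exact ⟨-(a * C / p), by linarith⟩

theorem sum_blocks (f : ℕ → ℕ) (m k : ℕ) : ∑ t ∈ range (k * m), f t = ∑ s ∈ range k, ∑ v ∈ range m, f (s * m + v) := by
  induction k with
  | zero => simp
  | succ k ih =>
    rw [add_mul, one_mul, sum_range_add, ih, sum_range_succ]

/-- **the number of solutions in a period** -/
theorem cnt_per (A : ℤ) (x₀ L : ℕ) (hx₀ : 1 ≤ x₀) (T : Finset ℕ) : (∀ p ∈ T, p.Prime ∧ ¬ p ∣ L) →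
    ((range (MT T)).filter (fun t => AH A x₀ L T t)).card = cT' T := by
  induction T using Finset.induction_on_max with
  | empty =>
    intro _
    unfold MT cT' AH
    simp
  | insert p T' hmax ih =>
    intro hT
    have hp : p.Prime := (hT p (mem_insert_self _ _)).1
    have hpL : ¬ p ∣ L := (hT p (mem_insert_self _ _)).2
    have hT' : ∀ q ∈ T', q.Prime ∧ ¬ q ∣ L := fun q hq => hT q (mem_insert_of_mem hq)
    have hpn : p ∉ T' := fun h => (lt_irrefl p) (hmax p h)
    have ih' := ih hT'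
    have e1 : MT (insert p T') = p * ((p - 1) * MT T') := by
      unfold MT
      rw [prod_insert hpn]
      ring
    have e2 : cT' (insert p T') = (p - 1) * cT' T' := by
      unfold cT'
      rw [prod_insert hpn]
    obtain ⟨m, hm⟩ : ∃ m, m = (p - 1) * MT T' := ⟨_, rfl⟩
    have hpm : ¬ p ∣ m := by
      rw [hm, hp.dvd_mul]
      rintro (h | h)
      · have h5 := hp.two_le
        have := Nat.le_of_dvd (by omega) h
        omega
      · unfold MT at h
        rw [hp.prime.dvd_finset_prod_iff] at h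
        obtain ⟨q, hq, h⟩ := h
        have hqp := hmax q hq
        have hq2 := (hT' q hq).1.two_le
        rcases hp.dvd_mul.1 h with h | h
        · have := Nat.le_of_dvd (by omega) h
          omega
        · have := Nat.le_of_dvd (by omega) h
          omega
    rw [e1, e2, ← hm, card_filter, sum_blocks, sum_comm]
    have h1 : ∀ v ∈ range m, ∑ s ∈ range p, (if AH A x₀ L (insert p T') (s * m + v) then 1 else 0) =
        (if AH A x₀ L T' v then 1 else 0) := by
      intro v _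
      have h2 : ∀ s : ℕ, AH A x₀ L (insert p T') (s * m + v) ↔ (Hit A x₀ L p (s * m + v) ∧ AH A x₀ L T' v) := by
        intro s
        have h30 : AH A x₀ L (insert p T') (s * m + v) ↔ (Hit A x₀ L p (s * m + v) ∧ AH A x₀ L T' (s * m + v)) := by
          unfold AH
          rw [forall_mem_insert]
        rw [h30]
        have h3 : AH A x₀ L T' (s * m + v) ↔ AH A x₀ L T' v := by
          rw [add_comm (s * m) v]
          exact all_per A x₀ L hx₀ T' (fun q hq => (hT' q hq).1) (s * m) (by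
            rw [hm]
            exact Dvd.dvd.mul_left (Dvd.intro_left _ rfl) _) v
        rw [h3]
      by_cases hv : AH A x₀ L T' v
      · rw [if_pos hv]
        have h3 := one_s A x₀ L hx₀ p hp m (by rw [hm]; exact Dvd.intro _ rfl) hpm hpL v
        rw [card_filter] at h3
        refine Eq.trans (sum_congr rfl fun s _ => ?_) h3
        by_cases hs : Hit A x₀ L p (s * m + v)
        · rw [if_pos ((h2 s).2 ⟨hs, hv⟩), if_pos hs]
        · rw [if_neg (fun h => hs ((h2 s).1 h).1), if_neg hs]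
      · rw [if_neg hv]
        apply sum_eq_zero
        intro s _
        rw [if_neg (fun h => hv ((h2 s).1 h).2)]
    rw [sum_congr rfl h1, ← card_filter, hm, mul_comm (p - 1) (MT T'), card_mul (P := fun t => AH A x₀ L T' t) (fun n => all_per A x₀ L hx₀ T' (fun q hq => (hT' q hq).1) (MT T') (dvd_refl _) n), ih', mul_comm]

/-- **any interval** -/
theorem cnt_int (A : ℤ) (x₀ L : ℕ) (hx₀ : 1 ≤ x₀) (T : Finset ℕ) (hT : ∀ p ∈ T, p.Prime ∧ ¬ p ∣ L) (X : ℕ) :
    |(((range X).filter (fun t => AH A x₀ L T t)).card : ℝ) - X * ∏ p ∈ T, (1 / (p : ℝ))| ≤ ((∏ p ∈ T, p : ℕ) : ℝ) := by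
  obtain ⟨M, hM⟩ : ∃ M, M = MT T := ⟨_, rfl⟩
  obtain ⟨c, hc⟩ : ∃ c, c = cT' T := ⟨_, rfl⟩
  have hcnt := cnt_per A x₀ L hx₀ T hT
  rw [← hM, ← hc] at hcnt
  have hM0 : 0 < M := by
    rw [hM]
    apply prod_pos
    intro p hp
    have := (hT p hp).1.two_le
    exact Nat.mul_pos (by omega) (by omega)
  have hM0r : (0 : ℝ) < M := by exact_mod_cast hM0
  have hdens : (c : ℝ) = M * ∏ p ∈ T, (1 / (p : ℝ)) := by
    rw [hc, hM]
    unfold cT' MT
    push_cast
    rw [← prod_mul_distrib]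
    refine prod_congr rfl fun p hp => ?_
    have h1 := (hT p hp).1.pos
    have h2 : (p : ℝ) ≠ 0 := by exact_mod_cast h1.ne'
    field_simp
  have hcd : (c : ℝ) ≤ ((∏ p ∈ T, p : ℕ) : ℝ) := by
    rw [hc]
    unfold cT'
    have : ∏ p ∈ T, (p - 1) ≤ ∏ p ∈ T, p := prod_le_prod' fun p _ => Nat.sub_le _ _
    exact_mod_cast this
  refine le_trans ?_ hcd
  obtain ⟨D, hD⟩ : ∃ D : ℝ, D = ∏ p ∈ T, (1 / (p : ℝ)) := ⟨_, rfl⟩
  rw [← hD] at hdens ⊢
  have hD0 : 0 ≤ D := by rw [hD]; exact prod_nonneg fun p _ => by positivity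
  have hm := card_mul (P := fun t => AH A x₀ L T t) (q := M) (fun n => all_per A x₀ L hx₀ T (fun q hq => (hT q hq).1) M (by rw [hM]) n)
  obtain ⟨k, hk⟩ : ∃ k, k = X / M := ⟨_, rfl⟩
  have k1 : M * k ≤ X := by rw [hk]; exact Nat.mul_div_le X M
  have k2 : X ≤ M * (k + 1) := by rw [hk]; exact (Nat.lt_mul_div_succ X hM0).le
  have m1 := hm k
  have m2 := hm (k + 1)
  rw [hcnt] at m1 m2
  have n1 : ((range (M * k)).filter (fun t => AH A x₀ L T t)).card ≤ ((range X).filter (fun t => AH A x₀ L T t)).card :=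
    card_le_card (filter_subset_filter _ (range_subset_range.2 k1))
  have n2 : ((range X).filter (fun t => AH A x₀ L T t)).card ≤ ((range (M * (k + 1))).filter (fun t => AH A x₀ L T t)).card :=
    card_le_card (filter_subset_filter _ (range_subset_range.2 k2))
  rw [m1] at n1
  rw [m2] at n2
  have n1r : (c : ℝ) * k ≤ (((range X).filter (fun t => AH A x₀ L T t)).card : ℝ) := by exact_mod_cast n1
  have n2r : (((range X).filter (fun t => AH A x₀ L T t)).card : ℝ) ≤ c * (k + 1) := by exact_mod_cast n2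
  have k1r : (M : ℝ) * k ≤ X := by exact_mod_cast k1
  have k2r : (X : ℝ) ≤ M * (k + 1) := by exact_mod_cast k2
  have p1 : (c : ℝ) * k ≤ X * D := by
    rw [hdens]
    calc (M : ℝ) * D * k = M * k * D := by ring
      _ ≤ X * D := mul_le_mul_of_nonneg_right k1r hD0
  have p2 : X * D ≤ c * (k + 1) := by
    rw [hdens]
    calc X * D ≤ M * (k + 1) * D := mul_le_mul_of_nonneg_right k2r hD0
      _ = _ := by ring
  rw [abs_le]
  constructor <;> linarith

end Run7.h870.RQ
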