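import Mathlib

/-!
# No covering: in every residue class the exponents avoid the primes of the modulus
-/

set_option autoImplicit false
set_option linter.all false

namespace Run7.h870.RQ

open Finset

theorem per (l : ℕ) (hl : l.Prime) (L : ℕ) (h : l - 1 ∣ L) (x : ℕ) (hx : 1 ≤ x) : (l : ℤ) ∣ 2 ^ (x + L) - 2 ^ x := by
  by_cases h2 : l = 2
  · subst h2
    apply dvd_sub
    · exact dvd_pow_self _ (by omega)
    · exact dvd_pow_self _ (by omega)
  · obtain ⟨k, rfl⟩ := h
    have hc : IsCoprime (2 : ℤ) l := by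
      have h3 := (Nat.coprime_primes Nat.prime_two hl).2 (Ne.symm h2)
      have h4 := Nat.isCoprime_iff_coprime.2 h3
      exact_mod_cast h4
    have h3 : (l : ℤ) ∣ 2 ^ (l - 1) - 1 := (Int.ModEq.pow_card_sub_one_eq_one hl hc).symm.dvd
    have h4 : (2 : ℤ) ^ (l - 1) - 1 ∣ (2 ^ (l - 1)) ^ k - 1 ^ k := sub_dvd_pow_sub_pow _ _ _
    rw [one_pow, ← pow_mul] at h4
    have h5 : (2 : ℤ) ^ (x + (l - 1) * k) - 2 ^ x = 2 ^ x * (2 ^ ((l - 1) * k) - 1) := by
      rw [pow_add]
      ring
    rw [h5]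
    exact Dvd.dvd.mul_left (h3.trans h4) _

/-- the function -/
def fy (x : ℕ) : ℤ := 2 ^ x - x

theorem shift (l : ℕ) (hl : l.Prime) (P : ℕ) (hlP : l ≤ P) (x : ℕ) (hx : 1 ≤ x) (t : ℕ) :
    (l : ℤ) ∣ fy (x + t * P.factorial) - fy x := by
  have h1 : l - 1 ∣ t * P.factorial := by
    apply Dvd.dvd.mul_left
    apply Nat.dvd_factorial
    · have := hl.two_le
      omega
    · omega
  have h2 := per l hl _ h1 x hx
  have h3 : (l : ℤ) ∣ ((t * P.factorial : ℕ) : ℤ) := by
    have h4 : l ∣ t * P.factorial := Dvd.dvd.mul_left (Nat.dvd_factorial hl.pos hlP) _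
    exact_mod_cast h4
  have h4 : fy (x + t * P.factorial) - fy x = (2 ^ (x + t * P.factorial) - 2 ^ x) - ((t * P.factorial : ℕ) : ℤ) := by
    unfold fy
    push_cast
    ring
  rw [h4]
  exact dvd_sub h2 h3

theorem ex_class (r : ℤ) (P : ℕ) : ∃ x : ℕ, 1 ≤ x ∧ ∀ p : ℕ, p.Prime → p ≤ P → ¬ (p : ℤ) ∣ r + fy x := by
  induction P with
  | zero => exact ⟨1, le_rfl, fun p hp h => by
      have := hp.two_le
      omega⟩
  | succ P ih =>
    obtain ⟨x, hx, h⟩ := ih
    by_cases hp : (P + 1).Prime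
    · by_cases h1 : ((P + 1 : ℕ) : ℤ) ∣ r + fy x
      · refine ⟨x + 1 * P.factorial, by omega, fun p hpp hple => ?_⟩
        rcases Nat.lt_or_ge P p with hlt | hge
        · have hpe : p = P + 1 := by omega
          rw [hpe]
          intro h2
          have h4 := per (P + 1) hp (1 * P.factorial) (by
            rw [Nat.add_sub_cancel, one_mul]
            exact Nat.dvd_factorial (by have := hp.two_le; omega) le_rfl) x hx
          have h5 : ((P + 1 : ℕ) : ℤ) ∣ (P.factorial : ℤ) := by
            have h6 := dvd_sub h4 (dvd_sub h2 h1)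
            have h7 : (2 : ℤ) ^ (x + 1 * P.factorial) - 2 ^ x - (r + fy (x + 1 * P.factorial) - (r + fy x)) = (P.factorial : ℤ) := by
              unfold fy
              push_cast
              ring
            rwa [h7] at h6
          have h6 : (P + 1) ∣ P.factorial := by exact_mod_cast h5
          have := (Nat.Prime.dvd_factorial hp).1 h6
          omega
        · intro h2
          apply h p hpp hge
          have h3 := dvd_sub h2 (shift p hpp P hge x hx 1)
          have h7 : r + fy (x + 1 * P.factorial) - (fy (x + 1 * P.factorial) - fy x) = r + fy x := by ring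
          rwa [h7] at h3
      · refine ⟨x, hx, fun p hpp hple => ?_⟩
        rcases Nat.lt_or_ge P p with hlt | hge
        · have hpe : p = P + 1 := by omega
          rw [hpe]
          exact h1
        · exact h p hpp hge
    · refine ⟨x, hx, fun p hpp hple => h p hpp ?_⟩
      by_contra hc
      have hpe : p = P + 1 := by omega
      rw [hpe] at hpp
      exact hp hpp

/-- the exponents of one class give values prime to the modulus -/
theorem ex_cop (q : ℕ) (hq : 1 ≤ q) (r : ℤ) : ∃ x₀ : ℕ, 1 ≤ x₀ ∧ ∀ t : ℕ, IsCoprime (r + fy (x₀ + t * q.factorial)) (q : ℤ) := by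
  obtain ⟨x₀, hx, h⟩ := ex_class r q
  refine ⟨x₀, hx, fun t => ?_⟩
  rw [Int.isCoprime_iff_gcd_eq_one]
  by_contra hne
  obtain ⟨p, hp, hpd⟩ := Nat.exists_prime_and_dvd hne
  have h1 : (p : ℤ) ∣ r + fy (x₀ + t * q.factorial) := (Int.natCast_dvd_natCast.2 hpd).trans (Int.gcd_dvd_left _ _)
  have h2 : (p : ℤ) ∣ (q : ℤ) := (Int.natCast_dvd_natCast.2 hpd).trans (Int.gcd_dvd_right _ _)
  have h3 : p ∣ q := by exact_mod_cast h2
  have h4 : p ≤ q := Nat.le_of_dvd hq h3
  apply h p hp h4
  have h5 := dvd_sub h1 (shift p hp q h4 x₀ hx t)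
  have h7 : r + fy (x₀ + t * q.factorial) - (fy (x₀ + t * q.factorial) - fy x₀) = r + fy x₀ := by ring
  rwa [h7] at h5

end Run7.h870.RQ
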