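import Pool.Agent.Run7.h870.RQ.Kl
import Pool.Agent.Run7.h870.RQ.Ex
import Pool.Agent.Run7.h870.FS.Sm
import Pool.Agent.H387R2.U3

/-!
# The two moments for `2 ^ x - x`
-/

set_option autoImplicit false
set_option linter.all false

namespace Run7.h870.RQ

open Finset Filter
open Pool.Agent.H646 (rat)
open Run7.h870.FS (ch_up ch_low)
open Run7.h870.FT (G3 G3_nonneg)
open scoped Classical

/-- the number of exponents -/
noncomputable def RR (K n : ℕ) : ℕ := ((Icc 1 K).filter (fun x => ((n : ℤ) + fx x).toNat.Prime)).card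

/-- the integers of the class -/
noncomputable def NN (N K q r : ℕ) : Finset ℕ := (Icc 1 N).filter (fun n => n % q = r % q ∧ K < n)

theorem pi1_eq (N : ℕ) : H343E.pi1 N = (Nat.primeCounting N : ℝ) := by
  unfold H343E.pi1
  rw [Nat.primeCounting, Nat.primeCounting', Nat.count_eq_card_filter_range]
  congr 1
  have : (Icc 1 N).filter (fun p => p.Prime) = (range (N + 1)).filter (fun p => p.Prime) := by
    ext p
    rw [mem_filter, mem_filter, mem_Icc, mem_range]
    constructor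
    · rintro ⟨⟨_, h⟩, hp⟩
      exact ⟨by omega, hp⟩
    · rintro ⟨h, hp⟩
      exact ⟨⟨hp.one_le, by omega⟩, hp⟩
  rw [← this]

theorem pi_low (q : ℕ) (hq : 1 ≤ q) : ∃ N₀ : ℕ, ∀ N : ℕ, N₀ ≤ N → ∀ a : ℕ, a < q → a.Coprime q →
    (N : ℝ) / (4 * q * Real.log N) ≤ H343E.piAP N q a := by
  obtain ⟨x1, h1⟩ := Pool.Agent.H387R2.Uni.siegel
  obtain ⟨x2, h2⟩ := ch_low
  have h3 : ∀ᶠ N : ℕ in atTop, 4 * (q : ℝ) ≤ Real.log N :=
    (Real.tendsto_log_atTop.comp tendsto_natCast_atTop_atTop).eventually_ge_atTop _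
  obtain ⟨x3, h3⟩ := eventually_atTop.1 h3
  refine ⟨max (max x1 x2) (max x3 3), fun N hN a ha hac => ?_⟩
  have hN1 : x1 ≤ N := by omega
  have hN2 : x2 ≤ N := by omega
  have hN3 : x3 ≤ N := by omega
  have hNr : (3 : ℝ) ≤ N := by exact_mod_cast (by omega : 3 ≤ N)
  have hq1 : (1 : ℝ) ≤ q := by exact_mod_cast hq
  have hl := h3 N hN3
  obtain ⟨l, hle⟩ : ∃ l, l = Real.log N := ⟨_, rfl⟩
  rw [← hle] at hl
  have hl4 : 4 ≤ l := by linarith
  have hl0 : 0 < l := by linarith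
  have h4 := h1 N hN1 q hq (by rw [← hle]; nlinarith) a ha hac
  have h5 := h2 N hN2
  rw [pi1_eq, ← hle] at h4
  rw [← hle] at h5 ⊢
  have hφ0 : (0 : ℝ) < Nat.totient q := by exact_mod_cast Nat.totient_pos.2 hq
  have hφ : (Nat.totient q : ℝ) ≤ q := by exact_mod_cast Nat.totient_le q
  have h6 := (abs_le.1 h4).1
  have h7 : (N : ℝ) / (2 * l) / q ≤ (Nat.primeCounting N : ℝ) / Nat.totient q :=
    div_le_div₀ (Nat.cast_nonneg _) h5 hφ0 hφ
  have h8 : (N : ℝ) / l ^ 6 ≤ N / (4 * q * l) := by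
    apply div_le_div_of_nonneg_left (by linarith) (by positivity)
    have h9 : 4 * (q : ℝ) ≤ l ^ 5 := by
      refine hl.trans ?_
      calc l = l ^ 1 := (pow_one l).symm
        _ ≤ l ^ 5 := pow_le_pow_right₀ (by linarith) (by norm_num)
    calc 4 * (q : ℝ) * l ≤ l ^ 5 * l := mul_le_mul_of_nonneg_right h9 hl0.le
      _ = l ^ 6 := by ring
  have h9 : (N : ℝ) / (2 * l) / q = N / (4 * q * l) + N / (4 * q * l) := by
    field_simp
    norm_num
  linarith

theorem ap_count (N K q r x : ℕ) (hq : 1 ≤ q) (hc : IsCoprime ((r : ℤ) + fy x) (q : ℤ)) (h : ∀ a : ℕ, a < q → a.Coprime q →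
    (N : ℝ) / (4 * q * Real.log N) ≤ H343E.piAP N q a) :
    (N : ℝ) / (4 * q * Real.log N) ≤ (((NN N K q r).filter (fun n : ℕ => ((n : ℤ) + fx x).toNat.Prime)).card : ℝ) + (2 ^ x + K + 1) := by
  obtain ⟨F, hF⟩ : ∃ F, F = 2 ^ x - x := ⟨_, rfl⟩
  have hxl : x < 2 ^ x := Nat.lt_two_pow_self
  have hFx : (F : ℤ) = fx x := by
    rw [hF]
    unfold fx
    rw [Nat.cast_sub hxl.le]
    push_cast
    rfl
  have hFy : (F : ℤ) = fy x := hFx
  rw [← hFy] at hc
  have hc2 : Nat.Coprime (r + F) q := by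
    apply Nat.isCoprime_iff_coprime.1
    push_cast
    exact hc
  have hc3 : Nat.Coprime ((r + F) % q) q := by
    unfold Nat.Coprime at hc2 ⊢
    rw [← Nat.gcd_rec, Nat.gcd_comm]
    exact hc2
  refine (h _ (Nat.mod_lt _ hq) hc3).trans ?_
  have h1 : ((Icc 1 N).filter (fun p => p.Prime ∧ p ≡ (r + F) % q [MOD q])) ⊆
      (((NN N K q r).filter (fun n : ℕ => ((n : ℤ) + fx x).toNat.Prime)).image (fun n => n + F)) ∪ range (F + K + 1) := by
    intro p hp
    rw [mem_filter, mem_Icc] at hp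
    rw [mem_union, mem_range]
    by_cases hpF : p < F + K + 1
    · right
      exact hpF
    · left
      rw [mem_image]
      refine ⟨p - F, ?_, by omega⟩
      unfold NN
      rw [mem_filter, mem_filter, mem_Icc]
      have e1 : (((p - F : ℕ) : ℤ) + fx x).toNat = p := by
        rw [← hFx]
        omega
      rw [e1]
      refine ⟨⟨⟨by omega, by omega⟩, ?_, by omega⟩, hp.2.1⟩
      have h2 : p ≡ r + F [MOD q] := hp.2.2.trans (Nat.mod_modEq _ _)
      have h3 : (p - F) + F ≡ r + F [MOD q] := by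
        have e2 : (p - F) + F = p := by omega
        rw [e2]
        exact h2
      exact Nat.ModEq.add_right_cancel' F h3
  have h2 := (card_le_card h1).trans (card_union_le _ _)
  have h3 := card_image_le (s := (NN N K q r).filter (fun n : ℕ => ((n : ℤ) + fx x).toNat.Prime)) (f := fun n => n + F)
  rw [card_range] at h2
  unfold H343E.piAP
  have h4 : ((Icc 1 N).filter (fun p => p.Prime ∧ p ≡ (r + F) % q [MOD q])).card ≤
      ((NN N K q r).filter (fun n : ℕ => ((n : ℤ) + fx x).toNat.Prime)).card + (2 ^ x + K + 1) := by omega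
  have h5 : (((Icc 1 N).filter (fun p => p.Prime ∧ p ≡ (r + F) % q [MOD q])).card : ℝ) ≤
      (((NN N K q r).filter (fun n : ℕ => ((n : ℤ) + fx x).toNat.Prime)).card : ℝ) + (2 ^ x + K + 1) := by exact_mod_cast h4
  refine le_trans (le_of_eq ?_) h5
  congr!

/-- facts about the number of exponents -/
theorem K_facts (N : ℕ) (hN : 16 ≤ N) : 1 ≤ Nat.log 2 N / 2 ∧ 2 ^ (2 * (Nat.log 2 N / 2)) ≤ N ∧ Real.log N ≤ 3 * ((Nat.log 2 N / 2 : ℕ) : ℝ) ∧
    ((Nat.log 2 N / 2 : ℕ) : ℝ) ≤ Real.log N ∧ (2 : ℝ) ^ (Nat.log 2 N / 2) ≤ √(N : ℝ) := by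
  have h4 : 4 ≤ Nat.log 2 N := Nat.le_log_of_pow_le (by norm_num) hN
  obtain ⟨K, hK⟩ : ∃ K, K = Nat.log 2 N / 2 := ⟨_, rfl⟩
  rw [← hK]
  have hK1 : 1 ≤ K := by omega
  have hK1r : (1 : ℝ) ≤ K := by exact_mod_cast hK1
  have h1 : 2 ^ (2 * K) ≤ N := (Nat.pow_le_pow_right (by norm_num) (by omega)).trans (Nat.pow_log_le_self 2 (by omega))
  have h2 : N ≤ 2 ^ (2 * K + 2) := (Nat.lt_pow_succ_log_self (by norm_num) N).le.trans (Nat.pow_le_pow_right (by norm_num) (by omega))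
  have hN0 : (0 : ℝ) < N := by exact_mod_cast (by omega : 0 < N)
  have h1r : (2 : ℝ) ^ (2 * K) ≤ N := by exact_mod_cast h1
  have h2r : (N : ℝ) ≤ 2 ^ (2 * K + 2) := by exact_mod_cast h2
  have g1 := Real.log_two_gt_d9
  have g2 := Real.log_two_lt_d9
  refine ⟨hK1, h1, ?_, ?_, ?_⟩
  · have h3 := Real.log_le_log hN0 h2r
    rw [Real.log_pow] at h3
    push_cast at h3
    nlinarith
  · have h3 := Real.log_le_log (by positivity) h1r
    rw [Real.log_pow] at h3
    push_cast at h3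
    nlinarith
  · apply Real.le_sqrt_of_sq_le
    rw [← pow_mul, mul_comm K 2]
    exact h1r

/-- **the first moment** -/
theorem fm (q r : ℕ) (hq : 1 ≤ q) : ∃ c : ℝ, 0 < c ∧ ∃ N₀ : ℕ, ∀ N : ℕ, N₀ ≤ N →
    c * N ≤ ∑ n ∈ NN N (Nat.log 2 N / 2) q r, (RR (Nat.log 2 N / 2) n : ℝ) := by
  obtain ⟨x1, h1⟩ := pi_low q hq
  obtain ⟨x₀, hx₀, hcop⟩ := ex_cop q hq (r : ℤ)
  obtain ⟨L, hL⟩ : ∃ L, L = q.factorial := ⟨_, rfl⟩
  rw [← hL] at hcop
  have hL1 : 1 ≤ L := by rw [hL]; exact Nat.factorial_pos q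
  have hL0 : (0 : ℝ) < L := by exact_mod_cast hL1
  have hq0 : (0 : ℝ) < q := by exact_mod_cast hq
  have hbig : ∀ᶠ N : ℕ in atTop, 4 * √(N : ℝ) ≤ N / (8 * q * Real.log N) := by
    have h3 : Tendsto (fun x : ℝ => Real.log x / √x) atTop (nhds 0) := by
      have := (isLittleO_log_rpow_atTop (show (0 : ℝ) < 1 / 2 by norm_num)).tendsto_div_nhds_zero
      simpa [Real.sqrt_eq_rpow] using this
    have h4 : ∀ᶠ x : ℝ in atTop, Real.log x / √x < 1 / (32 * q) := h3.eventually_lt_const (by positivity)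
    filter_upwards [tendsto_natCast_atTop_atTop.eventually h4, eventually_ge_atTop 3] with X h5 h6
    have h7 : (3 : ℝ) ≤ X := by exact_mod_cast h6
    have h8 : 0 < Real.log X := Real.log_pos (by linarith)
    have h9 : 0 < √(X : ℝ) := Real.sqrt_pos.2 (by linarith)
    have h10 : √(X : ℝ) * √(X : ℝ) = X := Real.mul_self_sqrt (by linarith)
    rw [div_lt_div_iff₀ h9 (by positivity)] at h5
    rw [le_div_iff₀ (by positivity)]
    nlinarith
  obtain ⟨x3, h3⟩ := eventually_atTop.1 hbig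
  refine ⟨1 / (96 * q * L), by positivity, max (max x1 x3) (2 ^ (2 * (2 * x₀ + 4 * L + 4))), fun N hN => ?_⟩
  have hN1 : x1 ≤ N := by omega
  have hN3 : x3 ≤ N := by omega
  have hN4 : 2 ^ (2 * (2 * x₀ + 4 * L + 4)) ≤ N := by omega
  have hN16 : 16 ≤ N := by
    refine le_trans ?_ hN4
    calc 16 = 2 ^ 4 := by norm_num
      _ ≤ _ := Nat.pow_le_pow_right (by norm_num) (by omega)
  obtain ⟨hK1, hK2, hK3, hK4, hK5⟩ := K_facts N hN16
  have hKb : 2 * x₀ + 4 * L + 4 ≤ Nat.log 2 N / 2 := by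
    have := Nat.le_log_of_pow_le (by norm_num : 1 < 2) hN4
    omega
  obtain ⟨K, hK⟩ : ∃ K, K = Nat.log 2 N / 2 := ⟨_, rfl⟩
  rw [← hK] at hK1 hK2 hK3 hK4 hK5 hKb ⊢
  have hNr : (16 : ℝ) ≤ N := by exact_mod_cast hN16
  have hlog : 0 < Real.log N := Real.log_pos (by linarith)
  have hKr : (1 : ℝ) ≤ K := by exact_mod_cast hK1
  -- exchange
  have e1 : ∑ n ∈ NN N K q r, (RR K n : ℝ) = ∑ x ∈ Icc 1 K, (((NN N K q r).filter (fun n : ℕ => ((n : ℤ) + fx x).toNat.Prime)).card : ℝ) := by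
    unfold RR
    simp only [card_filter]
    push_cast
    rw [sum_comm]
  rw [e1]
  obtain ⟨J, hJ⟩ : ∃ J, J = K / (2 * L) := ⟨_, rfl⟩
  have hJK : J * (2 * L) ≤ K := by rw [hJ]; exact Nat.div_mul_le_self _ _
  have hinj : Set.InjOn (fun t => x₀ + t * L) (range J : Set ℕ) := by
    intro t _ t' _ h
    simp only at h
    have h5 : t * L = t' * L := by omega
    exact Nat.eq_of_mul_eq_mul_right hL1 h5
  have hsub : (range J).image (fun t => x₀ + t * L) ⊆ Icc 1 K := by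
    intro x hx
    obtain ⟨t, ht, rfl⟩ := mem_image.1 hx
    rw [mem_range] at ht
    rw [mem_Icc]
    have h5 : t * L ≤ J * L := Nat.mul_le_mul_right _ ht.le
    have h6 : J * (2 * L) = 2 * (J * L) := by ring
    constructor <;> omega
  have h5 := sum_le_sum_of_subset_of_nonneg hsub (f := fun x => (((NN N K q r).filter (fun n : ℕ => ((n : ℤ) + fx x).toNat.Prime)).card : ℝ)) (fun _ _ _ => Nat.cast_nonneg _)
  rw [sum_image hinj] at h5
  refine le_trans ?_ h5
  have h6 : ∀ t ∈ range J, (N : ℝ) / (8 * q * Real.log N) ≤ (((NN N K q r).filter (fun n : ℕ => ((n : ℤ) + fx (x₀ + t * L)).toNat.Prime)).card : ℝ) := by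
    intro t ht
    have h7 := ap_count N K q r (x₀ + t * L) hq (hcop t) (h1 N hN1)
    have h8 : x₀ + t * L ≤ K := (mem_Icc.1 (hsub (mem_image_of_mem _ ht))).2
    have h9 : (2 : ℝ) ^ (x₀ + t * L) ≤ 2 ^ K := pow_le_pow_right₀ (by norm_num) h8
    have h10 : (K : ℝ) + 1 ≤ 2 ^ K + 1 := by
      have : K < 2 ^ K := Nat.lt_two_pow_self
      have h11 : (K : ℝ) ≤ 2 ^ K := by exact_mod_cast this.le
      linarith
    have h11 : (1 : ℝ) ≤ 2 ^ K := one_le_pow₀ (by norm_num)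
    have h12 := h3 N hN3
    have h13 : (N : ℝ) / (4 * q * Real.log N) = N / (8 * q * Real.log N) + N / (8 * q * Real.log N) := by
      field_simp
      norm_num
    linarith
  refine le_trans ?_ (sum_le_sum h6)
  rw [sum_const, card_range, nsmul_eq_mul]
  have h7 : (K : ℝ) / (4 * L) ≤ J := by
    have h8 : K < 2 * L * (K / (2 * L) + 1) := Nat.lt_mul_div_succ K (by omega)
    rw [← hJ] at h8
    have h9 : K ≤ 4 * L * J := by
      have h10 : 4 * L ≤ K := by omega
      have h11 : 2 * L * (J + 1) = 2 * L * J + 2 * L := by ring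
      have h12 : 4 * L * J = 2 * (2 * L * J) := by ring
      omega
    have h10 : (K : ℝ) ≤ 4 * L * J := by exact_mod_cast h9
    rw [div_le_iff₀ (by positivity)]
    linarith
  calc 1 / (96 * (q : ℝ) * L) * N = (Real.log N / 3) / (4 * L) * (N / (8 * q * Real.log N)) := by
        field_simp
        norm_num
    _ ≤ (K : ℝ) / (4 * L) * (N / (8 * q * Real.log N)) := by
        apply mul_le_mul_of_nonneg_right _ (by positivity)
        apply div_le_div_of_nonneg_right _ (by positivity)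
        linarith
    _ ≤ J * (N / (8 * q * Real.log N)) := mul_le_mul_of_nonneg_right h7 (by positivity)

end Run7.h870.RQ
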