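import Pool.Agent.Run7.h870.FT.As
import Pool.Agent.H646.Moment

/-!
# Romanoff's sum for `2 ^ x - x`
-/

set_option autoImplicit false
set_option linter.all false

namespace Run7.h870.RQ

open Finset
open Pool.Agent.W93.HD (oT oT_mem oT_dvd gg)
open Pool.Agent.H646 (rat)
open Run7.h870.FS (rat_gg)
open Run7.h870.FT (G3 G3_nonneg)
open Pool.Agent.Y820.LT.RR (wD wD_nonneg gg_pow_split rom_sets prod_eq_wD)
open Pool.Agent.TH894.SM (card_pf card_diff)
open scoped Classical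

/-- the difference of two values -/
def Du (u j : ℕ) : ℤ := 2 ^ j * (2 ^ u - 1) - u

theorem cnt_u (K u : ℕ) (hu : 1 ≤ u) (T : Finset ℕ) (hT : ∀ p ∈ T, p.Prime ∧ 2 < p) (hTu : ∀ p ∈ T, ¬ p ∣ u) :
    ((range K).filter (fun j => ∀ p ∈ T, (p : ℤ) ∣ Du u j)).card ≤ K / oT 2 T + 1 := by
  obtain ⟨S, hS⟩ : ∃ S, S = (range K).filter (fun j => ∀ p ∈ T, (p : ℤ) ∣ Du u j) := ⟨_, rfl⟩
  rw [← hS]
  have key : ∀ j ∈ S, ∀ j' ∈ S, j < j' → 1 ≤ j' - j ∧ ∀ p ∈ T, p ∣ 2 ^ (2 * (j' - j)) - 1 := by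
    intro j hj j' hj' hlt
    refine ⟨by omega, fun p hp => ?_⟩
    rw [hS, mem_filter] at hj hj'
    have h1 := hj.2 p hp
    have h2 := hj'.2 p hp
    have hpp := (hT p hp).1
    have hpi : Prime (p : ℤ) := Nat.prime_iff_prime_int.1 hpp
    have h3 : (p : ℤ) ∣ 2 ^ j * ((2 ^ u - 1) * (2 ^ (j' - j) - 1)) := by
      have h4 := dvd_sub h2 h1
      have h5 : Du u j' - Du u j = 2 ^ j * ((2 ^ u - 1) * (2 ^ (j' - j) - 1)) := by
        unfold Du
        have h6 : (2 : ℤ) ^ j' = 2 ^ j * 2 ^ (j' - j) := by rw [← pow_add]; congr 1; omega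
        rw [h6]
        ring
      rwa [h5] at h4
    have hp2 : ¬ (p : ℤ) ∣ 2 ^ j := by
      intro h
      have h5 := hpi.dvd_of_dvd_pow h
      have h6 : p ∣ 2 := by exact_mod_cast h5
      have := Nat.le_of_dvd (by norm_num) h6
      have := (hT p hp).2
      omega
    have h4 := (hpi.dvd_or_dvd h3).resolve_left hp2
    have hpu : ¬ (p : ℤ) ∣ 2 ^ u - 1 := by
      intro h
      apply hTu p hp
      have h5 : (p : ℤ) ∣ 2 ^ j * (2 ^ u - 1) - Du u j := dvd_sub (Dvd.dvd.mul_left h _) h1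
      have h6 : 2 ^ j * (2 ^ u - 1) - Du u j = (u : ℤ) := by unfold Du; ring
      rw [h6] at h5
      exact_mod_cast h5
    have h5 := (hpi.dvd_or_dvd h4).resolve_left hpu
    have h6 : (p : ℤ) ∣ 2 ^ (2 * (j' - j)) - 1 := by
      have h7 : (2 : ℤ) ^ (2 * (j' - j)) - 1 = (2 ^ (j' - j) - 1) * (2 ^ (j' - j) + 1) := by
        rw [two_mul, pow_add]
        ring
      rw [h7]
      exact Dvd.dvd.mul_right h5 _
    have h7 : ((2 ^ (2 * (j' - j)) - 1 : ℕ) : ℤ) = 2 ^ (2 * (j' - j)) - 1 := by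
      rw [Nat.cast_sub Nat.one_le_two_pow]
      push_cast
      rfl
    rw [← h7] at h6
    exact_mod_cast h6
  apply card_diff K (oT 2 T) S
  · rw [hS]
    exact filter_subset _ _
  · intro j hj j' hj' hlt
    obtain ⟨h1, h2⟩ := key j hj j' hj' hlt
    exact oT_dvd 2 T _ h1 h2
  · intro hc
    obtain ⟨j, hj, j', hj', hne⟩ := one_lt_card.1 (by omega : 1 < S.card)
    rcases Nat.lt_or_gt_of_ne hne with hlt | hlt
    · obtain ⟨h1, h2⟩ := key j hj j' hj' hlt
      exact (oT_mem 2 T _ h1 h2).1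
    · obtain ⟨h1, h2⟩ := key j' hj' j hj hlt
      exact (oT_mem 2 T _ h1 h2).1

theorem rat_prod (D u : ℕ) (hu : 1 ≤ u) : ∏ p ∈ u.primeFactors, (1 + (D : ℝ) / (p : ℝ)) ≤ rat u ^ D := by
  have hn0 : (0 : ℝ) < u := by exact_mod_cast hu
  have h1 : (Nat.totient u : ℝ) = u * ∏ p ∈ u.primeFactors, (1 - (p : ℝ)⁻¹) := by
    have := Nat.totient_eq_mul_prod_factors u
    have h2 : ((Nat.totient u : ℚ) : ℝ) = ((u * ∏ p ∈ u.primeFactors, (1 - (p : ℚ)⁻¹) : ℚ) : ℝ) := by
      rw [this]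
    push_cast at h2
    exact h2
  have h2 : rat u = ∏ p ∈ u.primeFactors, ((1 : ℝ) - (p : ℝ)⁻¹)⁻¹ := by
    unfold rat
    rw [h1, ← div_div, div_self hn0.ne', one_div, Finset.prod_inv_distrib]
  rw [h2, ← prod_pow]
  apply prod_le_prod
  · intro p _
    positivity
  · intro p hp
    have hp2 : (2 : ℝ) ≤ p := by exact_mod_cast (Nat.prime_of_mem_primeFactors hp).two_le
    have hi : (0 : ℝ) < (p : ℝ)⁻¹ := by positivity
    have hi1 : (p : ℝ)⁻¹ ≤ 1 / 2 := by
      rw [inv_le_comm₀ (by linarith) (by norm_num)]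
      norm_num
      exact_mod_cast hp2
    have h3 : 1 + (D : ℝ) / p ≤ (1 + (p : ℝ)⁻¹) ^ D := by
      rw [div_eq_mul_inv]
      exact one_add_mul_le_pow (by linarith) D
    refine h3.trans (pow_le_pow_left₀ (by positivity) ?_ D)
    obtain ⟨i, hi'⟩ : ∃ i : ℝ, i = (p : ℝ)⁻¹ := ⟨_, rfl⟩
    rw [← hi'] at hi hi1 ⊢
    rw [← one_div, le_div_iff₀ (by linarith)]
    nlinarith

/-- splitting the sets of primes -/
theorem split_sets (P : Finset ℕ) (q : ℕ → Prop) [DecidablePred q] (F H : Finset ℕ → ℝ) (hF : ∀ T, 0 ≤ F T) (hH : ∀ T, 0 ≤ H T) :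
    ∑ T ∈ P.powerset, F (T.filter q) * H (T.filter (fun p => ¬ q p)) ≤
      (∑ T ∈ (P.filter q).powerset, F T) * ∑ T ∈ (P.filter (fun p => ¬ q p)).powerset, H T := by
  rw [sum_mul_sum, ← sum_product']
  have hinj : Set.InjOn (fun T : Finset ℕ => (T.filter q, T.filter (fun p => ¬ q p))) (P.powerset : Set (Finset ℕ)) := by
    intro T _ T' _ h
    simp only [Prod.mk.injEq] at h
    rw [← filter_union_filter_not_eq q T, ← filter_union_filter_not_eq q T', h.1, h.2]
  have h1 := sum_image (f := fun z : Finset ℕ × Finset ℕ => F z.1 * H z.2) hinj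
  simp only at h1
  rw [← h1]
  apply sum_le_sum_of_subset_of_nonneg
  · intro z hz
    obtain ⟨T, hT, rfl⟩ := mem_image.1 hz
    rw [mem_powerset] at hT
    rw [mem_product, mem_powerset, mem_powerset]
    exact ⟨filter_subset_filter q hT, filter_subset_filter _ hT⟩
  · intro z _ _
    exact mul_nonneg (hF _) (hH _)

/-- **one difference** -/
theorem one_u (B : ℕ) : ∃ C : ℝ, 0 < C ∧ ∃ A : ℕ, ∀ K : ℕ, 1 ≤ K → ∀ u : ℕ, 1 ≤ u → u ≤ K →
    ∑ j ∈ range (K + 1), G3 B (Du u j) ≤ C * K * rat u ^ A := by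
  obtain ⟨κ, hκ⟩ : ∃ κ, κ = 4 * B := ⟨_, rfl⟩
  obtain ⟨C2, hC2, h2⟩ := rom_sets (2 ^ κ) Nat.one_le_two_pow 2 le_rfl
  obtain ⟨E, hE⟩ : ∃ E : ℝ, E = (1 + ((2 ^ κ : ℕ) : ℝ)) ^ 2 * Real.exp ((2 ^ κ : ℕ) : ℝ) := ⟨_, rfl⟩
  have hE0 : 0 < E := by rw [hE]; positivity
  refine ⟨E * C2 * 2 + 1, by positivity, 2 ^ κ, fun K hK u hu huK => ?_⟩
  have hK0 : (0 : ℝ) < K := by exact_mod_cast hK
  have hK1 : (1 : ℝ) ≤ K := by exact_mod_cast hK
  obtain ⟨Y, hY⟩ : ∃ Y, Y = 8 * K := ⟨_, rfl⟩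
  obtain ⟨P, hP⟩ : ∃ P, P = (Icc 1 Y).filter (fun p => p.Prime ∧ 2 < p) := ⟨_, rfl⟩
  have hPm : ∀ p ∈ P, p.Prime ∧ 2 < p := fun p hp => by
    rw [hP, mem_filter] at hp
    exact hp.2
  have hpos : ∀ j ∈ range (K + 1), G3 B (Du u j) ≤ E * ∑ T ∈ P.powerset, (if (∀ p ∈ T, (p : ℤ) ∣ Du u j) then wD (2 ^ κ) T else 0) := by
    intro j hj
    rw [mem_range] at hj
    have hnn : ∀ T ∈ P.powerset, 0 ≤ (if (∀ p ∈ T, (p : ℤ) ∣ Du u j) then wD (2 ^ κ) T else 0) := by
      intro T _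
      split_ifs
      · exact wD_nonneg _ T
      · exact le_rfl
    unfold G3
    split_ifs with hd
    · exact mul_nonneg hE0.le (sum_nonneg hnn)
    · have hn1 : 1 ≤ (Du u j).natAbs := by
        have := Int.natAbs_pos.2 hd
        omega
      have hrat : rat (Du u j).natAbs ^ B ≤ gg (Du u j).natAbs ^ κ := by
        have h5 : 0 ≤ rat (Du u j).natAbs := by
          unfold rat
          positivity
        calc rat (Du u j).natAbs ^ B ≤ (gg (Du u j).natAbs ^ 4) ^ B := pow_le_pow_left₀ h5 (rat_gg _ hn1) _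
          _ = gg (Du u j).natAbs ^ κ := by rw [← pow_mul, hκ]
      refine hrat.trans ?_
      have hcard : (Du u j).natAbs.primeFactors.card ≤ Y := by
        apply card_pf _ _ hn1
        have v1 : (2 : ℤ) ^ j * (2 ^ u - 1) ≤ 2 ^ (2 * K) := by
          have a1 : (2 : ℤ) ^ j ≤ 2 ^ K := pow_le_pow_right₀ (by norm_num) (by omega)
          have a2 : (2 : ℤ) ^ u ≤ 2 ^ K := pow_le_pow_right₀ (by norm_num) huK
          have a3 : (0 : ℤ) < 2 ^ j := by positivity
          have a4 : (1 : ℤ) ≤ 2 ^ u := one_le_pow₀ (by norm_num)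
          rw [two_mul, pow_add]
          nlinarith
        have v2 : (0 : ℤ) ≤ 2 ^ j * (2 ^ u - 1) := by
          have a4 : (1 : ℤ) ≤ 2 ^ u := one_le_pow₀ (by norm_num)
          have a3 : (0 : ℤ) < 2 ^ j := by positivity
          nlinarith
        have v3 : (u : ℤ) ≤ 2 ^ (2 * K) := by
          have a5 : u < 2 ^ (2 * K) := lt_of_lt_of_le Nat.lt_two_pow_self (Nat.pow_le_pow_right (by norm_num) (by omega))
          exact_mod_cast a5.le
        have v4 : ((Du u j).natAbs : ℤ) ≤ ((2 ^ (2 * K) : ℕ) : ℤ) := by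
          rw [Int.natCast_natAbs]
          push_cast
          unfold Du
          rw [abs_le]
          constructor
          · linarith
          · have : (0 : ℤ) ≤ u := Int.natCast_nonneg u
            linarith
        have v5 : (Du u j).natAbs ≤ 2 ^ (2 * K) := by exact_mod_cast v4
        exact v5.trans (Nat.pow_le_pow_right (by norm_num) (by omega))
      have h3 := gg_pow_split κ 2 Y (Du u j).natAbs (by omega) hcard
      rw [← hE] at h3
      refine h3.trans ?_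
      apply mul_le_mul_of_nonneg_left _ hE0.le
      rw [← sum_filter]
      apply sum_le_sum_of_subset_of_nonneg
      · intro T hT
        rw [mem_powerset] at hT
        rw [mem_filter, mem_powerset]
        constructor
        · intro p hp
          have := hT hp
          rw [mem_filter] at this
          rw [hP, mem_filter, mem_Icc]
          have hpp := Nat.prime_of_mem_primeFactors this.1
          exact ⟨⟨hpp.one_le, this.2.2⟩, hpp, this.2.1⟩
        · intro p hp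
          have := hT hp
          rw [mem_filter] at this
          exact Int.natCast_dvd.2 (Nat.dvd_of_mem_primeFactors this.1)
      · intro T _ _
        exact wD_nonneg _ T
  refine (sum_le_sum hpos).trans ?_
  rw [← mul_sum, sum_comm]
  have hcol : ∀ T ∈ P.powerset, ∑ j ∈ range (K + 1), (if (∀ p ∈ T, (p : ℤ) ∣ Du u j) then wD (2 ^ κ) T else 0) ≤
      wD (2 ^ κ) (T.filter (fun p => p ∣ u)) * (wD (2 ^ κ) (T.filter (fun p => ¬ p ∣ u)) * ((((K + 1) / oT 2 (T.filter (fun p => ¬ p ∣ u)) : ℕ) : ℝ) + 1)) := by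
    intro T hT
    rw [mem_powerset] at hT
    rw [← sum_filter, sum_const, nsmul_eq_mul]
    have h3 := cnt_u (K + 1) u hu (T.filter (fun p => ¬ p ∣ u)) (fun p hp => hPm p (hT (mem_filter.1 hp).1)) (fun p hp => (mem_filter.1 hp).2)
    have h4 : ((range (K + 1)).filter (fun j => ∀ p ∈ T, (p : ℤ) ∣ Du u j)).card ≤ ((range (K + 1)).filter (fun j => ∀ p ∈ T.filter (fun p => ¬ p ∣ u), (p : ℤ) ∣ Du u j)).card := by
      apply card_le_card
      intro j hj
      rw [mem_filter] at hj ⊢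
      exact ⟨hj.1, fun p hp => hj.2 p (mem_filter.1 hp).1⟩
    have h5 : (((range (K + 1)).filter (fun j => ∀ p ∈ T, (p : ℤ) ∣ Du u j)).card : ℝ) ≤ (((K + 1) / oT 2 (T.filter (fun p => ¬ p ∣ u)) : ℕ) : ℝ) + 1 := by
      exact_mod_cast h4.trans h3
    have h6 : wD (2 ^ κ) T = wD (2 ^ κ) (T.filter (fun p => p ∣ u)) * wD (2 ^ κ) (T.filter (fun p => ¬ p ∣ u)) := by
      unfold wD
      rw [prod_filter_mul_prod_filter_not]
    rw [h6]
    have h7 : 0 ≤ wD (2 ^ κ) (T.filter (fun p => p ∣ u)) * wD (2 ^ κ) (T.filter (fun p => ¬ p ∣ u)) := mul_nonneg (wD_nonneg _ _) (wD_nonneg _ _)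
    refine (mul_le_mul_of_nonneg_right h5 h7).trans (le_of_eq (by ring))
  have h3 : ∑ T ∈ P.powerset, ∑ j ∈ range (K + 1), (if (∀ p ∈ T, (p : ℤ) ∣ Du u j) then wD (2 ^ κ) T else 0) ≤ rat u ^ (2 ^ κ) * (C2 * ((K + 1 : ℕ) : ℝ)) := by
    refine (sum_le_sum hcol).trans ?_
    refine (split_sets P (fun p => p ∣ u) (fun T => wD (2 ^ κ) T) (fun T => wD (2 ^ κ) T * ((((K + 1) / oT 2 T : ℕ) : ℝ) + 1)) (fun T => wD_nonneg _ T)
      (fun T => mul_nonneg (wD_nonneg _ T) (by positivity))).trans ?_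
    have h4 : ∑ T ∈ (P.filter (fun p => p ∣ u)).powerset, wD (2 ^ κ) T ≤ rat u ^ (2 ^ κ) := by
      rw [← prod_eq_wD]
      refine le_trans ?_ (rat_prod (2 ^ κ) u hu)
      apply prod_le_prod_of_subset_of_one_le
      · intro p hp
        rw [mem_filter] at hp
        rw [Nat.mem_primeFactors]
        exact ⟨(hPm p hp.1).1, hp.2, by omega⟩
      · intro p _
        positivity
      · intro p _ _
        have : (0 : ℝ) ≤ ((2 ^ κ : ℕ) : ℝ) / p := by positivity
        linarith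
    have h5 := h2 (K + 1) (by omega) (P.filter (fun p => ¬ p ∣ u)) (fun p hp => (hPm p (mem_filter.1 hp).1).1) (by
      have h6 : (P.filter (fun p => ¬ p ∣ u)).card ≤ (Icc 1 Y).card := by
        rw [hP]
        exact (card_filter_le _ _).trans (card_filter_le _ _)
      rw [Nat.card_Icc] at h6
      omega)
    exact mul_le_mul h4 h5 (sum_nonneg fun T _ => mul_nonneg (wD_nonneg _ T) (by positivity)) (by
      apply pow_nonneg
      unfold rat
      positivity)
  have hr0 : 0 ≤ rat u ^ (2 ^ κ) := by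
    apply pow_nonneg
    unfold rat
    positivity
  calc _ ≤ E * (rat u ^ (2 ^ κ) * (C2 * ((K + 1 : ℕ) : ℝ))) := mul_le_mul_of_nonneg_left h3 hE0.le
    _ ≤ E * (rat u ^ (2 ^ κ) * (C2 * (2 * K))) := by
        apply mul_le_mul_of_nonneg_left _ hE0.le
        apply mul_le_mul_of_nonneg_left _ hr0
        apply mul_le_mul_of_nonneg_left _ hC2
        push_cast
        linarith
    _ = E * C2 * 2 * K * rat u ^ (2 ^ κ) := by ring
    _ ≤ (E * C2 * 2 + 1) * K * rat u ^ (2 ^ κ) := by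
        apply mul_le_mul_of_nonneg_right _ hr0
        apply mul_le_mul_of_nonneg_right _ hK0.le
        linarith

/-- the function -/
def fx (x : ℕ) : ℤ := 2 ^ x - x

/-- **all differences** -/
theorem all_u (B : ℕ) : ∃ C : ℝ, 0 < C ∧ ∀ K : ℕ, 1 ≤ K → ∑ x ∈ Icc 1 K, ∑ x' ∈ Icc 1 K, G3 B (fx x - fx x') ≤ C * K ^ 2 := by
  obtain ⟨C, hC, A, h⟩ := one_u B
  obtain ⟨C', hC', h'⟩ := Pool.Agent.H646.MomentM.rat_moment A
  refine ⟨2 * (C * C'), by positivity, fun K hK => ?_⟩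
  have hK0 : (0 : ℝ) < K := by exact_mod_cast hK
  have hneg : ∀ d : ℤ, G3 B (-d) = G3 B d := by
    intro d
    unfold G3
    simp only [neg_eq_zero, Int.natAbs_neg]
  have h1 : ∀ x ∈ Icc 1 K, ∀ x' ∈ Icc 1 K, G3 B (fx x - fx x') ≤
      ∑ u ∈ Icc 1 K, (if x = x' + u then G3 B (Du u x') else 0) + ∑ u ∈ Icc 1 K, (if x' = x + u then G3 B (Du u x) else 0) := by
    intro x hx x' hx'
    rw [mem_Icc] at hx hx'
    have n1 : 0 ≤ ∑ u ∈ Icc 1 K, (if x = x' + u then G3 B (Du u x') else 0) := sum_nonneg fun u _ => by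
      split_ifs
      · exact G3_nonneg _ _
      · exact le_rfl
    have n2 : 0 ≤ ∑ u ∈ Icc 1 K, (if x' = x + u then G3 B (Du u x) else 0) := sum_nonneg fun u _ => by
      split_ifs
      · exact G3_nonneg _ _
      · exact le_rfl
    rcases lt_trichotomy x x' with hlt | heq | hlt
    · have h2 := single_le_sum (s := Icc 1 K) (f := fun u => if x' = x + u then G3 B (Du u x) else 0) (fun u _ => by
        split_ifs
        · exact G3_nonneg _ _
        · exact le_rfl) (mem_Icc.2 ⟨(by omega : 1 ≤ x' - x), by omega⟩)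
      rw [if_pos (by omega)] at h2
      have h3 : Du (x' - x) x = -(fx x - fx x') := by
        unfold Du fx
        have h4 : (2 : ℤ) ^ x' = 2 ^ x * 2 ^ (x' - x) := by rw [← pow_add]; congr 1; omega
        rw [h4]
        push_cast [Nat.cast_sub hlt.le]
        ring
      rw [h3, hneg] at h2
      linarith
    · rw [heq, sub_self]
      have : G3 B 0 = 0 := by unfold G3; rw [if_pos rfl]
      rw [this]
      rw [heq] at n1 n2
      linarith
    · have h2 := single_le_sum (s := Icc 1 K) (f := fun u => if x = x' + u then G3 B (Du u x') else 0) (fun u _ => by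
        split_ifs
        · exact G3_nonneg _ _
        · exact le_rfl) (mem_Icc.2 ⟨(by omega : 1 ≤ x - x'), by omega⟩)
      rw [if_pos (by omega)] at h2
      have h3 : Du (x - x') x' = fx x - fx x' := by
        unfold Du fx
        have h4 : (2 : ℤ) ^ x = 2 ^ x' * 2 ^ (x - x') := by rw [← pow_add]; congr 1; omega
        rw [h4]
        push_cast [Nat.cast_sub hlt.le]
        ring
      rw [h3] at h2
      linarith
  have h2 : ∑ x ∈ Icc 1 K, ∑ x' ∈ Icc 1 K, ∑ u ∈ Icc 1 K, (if x = x' + u then G3 B (Du u x') else 0) ≤ C * C' * K ^ 2 := by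
    have e1 : ∑ x ∈ Icc 1 K, ∑ x' ∈ Icc 1 K, ∑ u ∈ Icc 1 K, (if x = x' + u then G3 B (Du u x') else 0) =
        ∑ u ∈ Icc 1 K, ∑ x' ∈ Icc 1 K, ∑ x ∈ Icc 1 K, (if x = x' + u then G3 B (Du u x') else 0) := by
      rw [sum_comm, sum_congr rfl (fun x' _ => sum_comm)]
      rw [sum_comm]
    rw [e1]
    have e2 : ∀ u ∈ Icc 1 K, ∑ x' ∈ Icc 1 K, ∑ x ∈ Icc 1 K, (if x = x' + u then G3 B (Du u x') else 0) ≤ C * K * rat u ^ A := by
      intro u hu
      rw [mem_Icc] at hu
      refine le_trans ?_ (h K hK u hu.1 hu.2)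
      have e3 : ∀ x' ∈ Icc 1 K, ∑ x ∈ Icc 1 K, (if x = x' + u then G3 B (Du u x') else 0) ≤ G3 B (Du u x') := by
        intro x' _
        rw [sum_ite_eq']
        split_ifs
        · exact le_rfl
        · exact G3_nonneg _ _
      refine (sum_le_sum e3).trans ?_
      apply sum_le_sum_of_subset_of_nonneg
      · intro j hj
        rw [mem_Icc] at hj
        rw [mem_range]
        omega
      · intro j _ _
        exact G3_nonneg _ _
    refine (sum_le_sum e2).trans ?_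
    rw [← mul_sum]
    calc C * K * ∑ u ∈ Icc 1 K, rat u ^ A ≤ C * K * (C' * K) := mul_le_mul_of_nonneg_left (h' K) (by positivity)
      _ = _ := by ring
  have h3 : ∑ x ∈ Icc 1 K, ∑ x' ∈ Icc 1 K, ∑ u ∈ Icc 1 K, (if x' = x + u then G3 B (Du u x) else 0) ≤ C * C' * K ^ 2 := by
    refine le_trans (le_of_eq ?_) h2
    exact sum_comm
  refine (sum_le_sum fun x hx => sum_le_sum fun x' hx' => h1 x hx x' hx').trans ?_
  have e4 : ∑ x ∈ Icc 1 K, ∑ x' ∈ Icc 1 K, (∑ u ∈ Icc 1 K, (if x = x' + u then G3 B (Du u x') else 0) + ∑ u ∈ Icc 1 K, (if x' = x + u then G3 B (Du u x) else 0)) =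
      ∑ x ∈ Icc 1 K, ∑ x' ∈ Icc 1 K, ∑ u ∈ Icc 1 K, (if x = x' + u then G3 B (Du u x') else 0) +
      ∑ x ∈ Icc 1 K, ∑ x' ∈ Icc 1 K, ∑ u ∈ Icc 1 K, (if x' = x + u then G3 B (Du u x) else 0) := by
    rw [← sum_add_distrib]
    exact sum_congr rfl fun x _ => sum_add_distrib
  rw [e4]
  linarith

end Run7.h870.RQ
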