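import Pool.Agent.Run7.h870.RQ.Fm

/-!
# A positive proportion of every residue class
-/

set_option autoImplicit false
set_option linter.all false

namespace Run7.h870.RQ

open Finset Filter
open Pool.Agent.H646 (rat)
open Run7.h870.FS (ch_up ch_low)
open Run7.h870.FT (G3 G3_nonneg)
open scoped Classical

theorem fx_lt (x x' : ℕ) (hx : 1 ≤ x) (h : x < x') : fx x < fx x' := by
  induction x', h using Nat.le_induction with
  | base =>
    unfold fx
    have : (2 : ℤ) ≤ 2 ^ x := by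
      calc (2 : ℤ) = 2 ^ 1 := by norm_num
        _ ≤ 2 ^ x := pow_le_pow_right₀ (by norm_num) hx
    push_cast
    rw [pow_succ]
    linarith
  | succ m hm ih =>
    refine ih.trans ?_
    unfold fx
    have : (2 : ℤ) ≤ 2 ^ m := by
      calc (2 : ℤ) = 2 ^ 1 := by norm_num
        _ ≤ 2 ^ m := pow_le_pow_right₀ (by norm_num) (by omega)
    push_cast
    rw [pow_succ]
    linarith

theorem fx_abs (N K x : ℕ) (hK : 2 ^ (2 * K) ≤ N) (hx : x ≤ K) : |fx x| ≤ N := by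
  have h1 : x < 2 ^ x := Nat.lt_two_pow_self
  have h2 : 2 ^ x ≤ N := (Nat.pow_le_pow_right (by norm_num) (by omega)).trans hK
  have h3 : (x : ℤ) < 2 ^ x := by exact_mod_cast h1
  have h4 : (2 : ℤ) ^ x ≤ N := by exact_mod_cast h2
  unfold fx
  rw [abs_le]
  constructor <;> linarith [Int.natCast_nonneg x]

theorem fx_nonneg (x : ℕ) : 0 ≤ fx x := by
  have h1 : x < 2 ^ x := Nat.lt_two_pow_self
  have h3 : (x : ℤ) < 2 ^ x := by exact_mod_cast h1
  unfold fx
  linarith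

/-- **the second moment** -/
theorem sm : ∃ C : ℝ, 0 < C ∧ ∃ N₀ : ℕ, ∀ N : ℕ, N₀ ≤ N → ∑ n ∈ Icc 1 N, (RR (Nat.log 2 N / 2) n : ℝ) ^ 2 ≤ C * N := by
  obtain ⟨C2, hC2, B, x2, h2⟩ := Run7.h870.PQ.up_inj 2 le_rfl
  obtain ⟨C, hC, hp⟩ := all_u B
  obtain ⟨x1, h1⟩ := ch_up
  refine ⟨2 * C2 * C + 6, by positivity, max (max x1 x2) 16, fun N hN => ?_⟩
  have hN1 : x1 ≤ N := by omega
  have hN2 : x2 ≤ N := by omega
  have hN16 : 16 ≤ N := by omega
  obtain ⟨hK1, hK2, hK3, hK4, hK5⟩ := K_facts N hN16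
  obtain ⟨K, hK⟩ : ∃ K, K = Nat.log 2 N / 2 := ⟨_, rfl⟩
  rw [← hK] at hK1 hK2 hK3 hK4 hK5 ⊢
  have hNr : (16 : ℝ) ≤ N := by exact_mod_cast hN16
  have hlog : 0 < Real.log N := Real.log_pos (by linarith)
  have hK0 : (0 : ℝ) ≤ K := Nat.cast_nonneg K
  have e1 : ∀ n : ℕ, (RR K n : ℝ) ^ 2 = ∑ x ∈ Icc 1 K, ∑ x' ∈ Icc 1 K, (if ((n : ℤ) + fx x).toNat.Prime ∧ ((n : ℤ) + fx x').toNat.Prime then (1 : ℝ) else 0) := by
    intro n
    unfold RR
    rw [sq, card_filter]
    push_cast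
    rw [sum_mul_sum]
    refine sum_congr rfl fun x _ => sum_congr rfl fun x' _ => ?_
    by_cases a1 : ((n : ℤ) + fx x).toNat.Prime <;> by_cases a2 : ((n : ℤ) + fx x').toNat.Prime
    · rw [if_pos a1, if_pos a2, if_pos ⟨a1, a2⟩, one_mul]
    · rw [if_neg a2, mul_zero, if_neg (fun h => a2 h.2)]
    · rw [if_neg a1, zero_mul, if_neg (fun h => a1 h.1)]
    · rw [if_neg a1, zero_mul, if_neg (fun h => a1 h.1)]
  have e2 : ∑ n ∈ Icc 1 N, (RR K n : ℝ) ^ 2 = ∑ x ∈ Icc 1 K, ∑ x' ∈ Icc 1 K,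
      (((Icc 1 N).filter (fun n : ℕ => ((n : ℤ) + fx x).toNat.Prime ∧ ((n : ℤ) + fx x').toNat.Prime)).card : ℝ) := by
    rw [sum_congr rfl (fun n _ => e1 n), sum_comm]
    refine sum_congr rfl fun x _ => ?_
    rw [sum_comm]
    refine sum_congr rfl fun x' _ => ?_
    rw [card_filter]
    push_cast
    rfl
  rw [e2]
  have hcc : ∀ x ∈ Icc 1 K, ∀ x' ∈ Icc 1 K, (((Icc 1 N).filter (fun n : ℕ => ((n : ℤ) + fx x).toNat.Prime ∧ ((n : ℤ) + fx x').toNat.Prime)).card : ℝ) ≤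
      2 * C2 * N / Real.log N ^ 2 * G3 B (fx x - fx x') + (if x = x' then 6 * N / Real.log N else 0) := by
    intro x hx x' hx'
    rw [mem_Icc] at hx hx'
    have hg0 := G3_nonneg B (fx x - fx x')
    have hV := fx_abs N K x hK2 hx.2
    have hV' := fx_abs N K x' hK2 hx'.2
    have hx0 := fx_nonneg x
    split_ifs with hd
    · have h3 : ((Icc 1 N).filter (fun n : ℕ => ((n : ℤ) + fx x).toNat.Prime ∧ ((n : ℤ) + fx x').toNat.Prime)).card ≤ Nat.primeCounting (2 * N) := by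
        rw [Nat.primeCounting, Nat.primeCounting', Nat.count_eq_card_filter_range]
        apply card_le_card_of_injOn (fun n : ℕ => ((n : ℤ) + fx x).toNat)
        · intro a ha
          rw [mem_coe, mem_filter, mem_Icc] at ha
          rw [mem_coe, mem_filter, mem_range]
          have h9 := (abs_le.1 hV).2
          refine ⟨?_, ha.2.1⟩
          show ((a : ℤ) + fx x).toNat < 2 * N + 1
          omega
        · intro a _ b _ hab
          simp only at hab
          omega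
      have h4 := h1 (2 * N) (by omega)
      push_cast at h4
      have h5 : 3 * (2 * (N : ℝ)) / Real.log (2 * N) ≤ 6 * N / Real.log N := by
        have h6 : Real.log N ≤ Real.log (2 * N) := Real.log_le_log (by linarith) (by linarith)
        rw [show 3 * (2 * (N : ℝ)) = 6 * N by ring]
        exact div_le_div_of_nonneg_left (by linarith) hlog h6
      have h6 : (((Icc 1 N).filter (fun n : ℕ => ((n : ℤ) + fx x).toNat.Prime ∧ ((n : ℤ) + fx x').toNat.Prime)).card : ℝ) ≤ (Nat.primeCounting (2 * N) : ℝ) := by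
        exact_mod_cast h3
      have h7 : 0 ≤ 2 * C2 * N / Real.log N ^ 2 * G3 B (fx x - fx x') := by positivity
      linarith
    · have hne : fx x ≠ fx x' := by
        rcases Nat.lt_or_gt_of_ne hd with h | h
        · exact (fx_lt x x' hx.1 h).ne
        · exact (fx_lt x' x hx'.1 h).ne'
      have h3 := h2 N hN2 ![fx x, fx x'] (Run7.h870.PQ.inj2 hne) (by
        intro j
        fin_cases j
        · exact hV
        · exact hV')
      rw [Run7.h870.PQ.ps2] at h3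
      have h4 : ((Icc 1 N).filter (fun n : ℕ => ((n : ℤ) + fx x).toNat.Prime ∧ ((n : ℤ) + fx x').toNat.Prime)).card ≤
          ((Icc 1 N).filter fun a : ℕ => ∀ j, ((a : ℤ) + ![fx x, fx x'] j).toNat.Prime).card := by
        apply card_le_card
        intro a ha
        rw [mem_filter] at ha ⊢
        refine ⟨ha.1, fun j => ?_⟩
        fin_cases j
        · exact ha.2.1
        · exact ha.2.2
      have h5 : (((Icc 1 N).filter (fun n : ℕ => ((n : ℤ) + fx x).toNat.Prime ∧ ((n : ℤ) + fx x').toNat.Prime)).card : ℝ) ≤ _ := (Nat.cast_le (α := ℝ).2 h4).trans h3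
      refine h5.trans (le_of_eq ?_)
      rw [add_zero]
      have h6 : Run7.h870.PQ.R B (fx x) (fx x') = G3 B (fx x - fx x') := by
        rw [Run7.h870.PQ.R_comm]
        unfold Run7.h870.PQ.R G3
        rw [if_neg (sub_ne_zero.2 hne)]
      rw [h6]
      ring
  refine (sum_le_sum fun x hx => sum_le_sum fun x' hx' => hcc x hx x' hx').trans ?_
  have e3 : ∑ x ∈ Icc 1 K, ∑ x' ∈ Icc 1 K, (2 * C2 * N / Real.log N ^ 2 * G3 B (fx x - fx x') + (if x = x' then 6 * N / Real.log N else 0)) =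
      2 * C2 * N / Real.log N ^ 2 * ∑ x ∈ Icc 1 K, ∑ x' ∈ Icc 1 K, G3 B (fx x - fx x') + ∑ x ∈ Icc 1 K, ∑ x' ∈ Icc 1 K, (if x = x' then 6 * (N : ℝ) / Real.log N else 0) := by
    rw [mul_sum, ← sum_add_distrib]
    refine sum_congr rfl fun x _ => ?_
    rw [mul_sum, ← sum_add_distrib]
  rw [e3]
  have h3 := hp K hK1
  have h4 : ∑ x ∈ Icc 1 K, ∑ x' ∈ Icc 1 K, (if x = x' then 6 * (N : ℝ) / Real.log N else 0) ≤ K * (6 * N / Real.log N) := by
    have h5 : ∀ x ∈ Icc 1 K, ∑ x' ∈ Icc 1 K, (if x = x' then 6 * (N : ℝ) / Real.log N else 0) ≤ 6 * N / Real.log N := by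
      intro x hx
      rw [sum_ite_eq, if_pos hx]
    refine (sum_le_sum h5).trans (le_of_eq ?_)
    rw [sum_const, Nat.card_Icc, nsmul_eq_mul, Nat.add_sub_cancel]
  have h5 : 2 * C2 * N / Real.log N ^ 2 * ∑ x ∈ Icc 1 K, ∑ x' ∈ Icc 1 K, G3 B (fx x - fx x') ≤ 2 * C2 * N / Real.log N ^ 2 * (C * Real.log N ^ 2) := by
    apply mul_le_mul_of_nonneg_left _ (by positivity)
    refine h3.trans ?_
    apply mul_le_mul_of_nonneg_left _ hC.le
    exact pow_le_pow_left₀ hK0 hK4 2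
  have h6 : 2 * C2 * N / Real.log N ^ 2 * (C * Real.log N ^ 2) = 2 * C2 * C * N := by field_simp
  have h7 : (K : ℝ) * (6 * N / Real.log N) ≤ Real.log N * (6 * N / Real.log N) := mul_le_mul_of_nonneg_right hK4 (by positivity)
  have h8 : Real.log N * (6 * N / Real.log N) = 6 * N := by field_simp
  linarith

/-- **the main theorem** -/
theorem main (q r : ℕ) (hq : 1 ≤ q) : ∃ c : ℝ, 0 < c ∧ ∃ N₀ : ℕ, ∀ N : ℕ, N₀ ≤ N →
    c * N ≤ (((Icc 1 N).filter (fun n => n % q = r % q ∧ ∃ x y : ℕ, 0 < x ∧ 0 < y ∧ n = x + y ∧ (2 ^ x + y).Prime)).card : ℝ) := by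
  obtain ⟨c, hc, n1, h1⟩ := fm q r hq
  obtain ⟨C, hC, n2, h2⟩ := sm
  refine ⟨c ^ 2 / C, by positivity, max (max n1 n2) 16, fun N hN => ?_⟩
  have hN1 : n1 ≤ N := by omega
  have hN2 : n2 ≤ N := by omega
  have hN0 : (0 : ℝ) < N := by exact_mod_cast (by omega : 0 < N)
  have g1 := h1 N hN1
  have g2 := h2 N hN2
  obtain ⟨K, hK⟩ : ∃ K, K = Nat.log 2 N / 2 := ⟨_, rfl⟩
  rw [← hK] at g1 g2
  obtain ⟨G, hG⟩ : ∃ G, G = (NN N K q r).filter (fun n => 0 < RR K n) := ⟨_, rfl⟩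
  have h3 : ∑ n ∈ NN N K q r, (RR K n : ℝ) = ∑ n ∈ G, (RR K n : ℝ) := by
    rw [hG]
    symm
    apply sum_subset (filter_subset _ _)
    intro n hn hn2
    rw [mem_filter, not_and] at hn2
    have h4 := hn2 hn
    have h5 : RR K n = 0 := by omega
    rw [h5, Nat.cast_zero]
  have h4 := sq_sum_le_card_mul_sum_sq (s := G) (f := fun n => (RR K n : ℝ))
  have h5 : ∑ n ∈ G, (RR K n : ℝ) ^ 2 ≤ C * N := by
    refine le_trans ?_ g2
    apply sum_le_sum_of_subset_of_nonneg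
    · rw [hG]
      refine (filter_subset _ _).trans ?_
      unfold NN
      exact filter_subset _ _
    · intro n _ _
      positivity
  have h6 : (c * N) ^ 2 ≤ G.card * (C * N) := by
    calc (c * N) ^ 2 ≤ (∑ n ∈ G, (RR K n : ℝ)) ^ 2 := pow_le_pow_left₀ (by positivity) (by rw [← h3]; exact g1) 2
      _ ≤ _ := h4
      _ ≤ _ := mul_le_mul_of_nonneg_left h5 (Nat.cast_nonneg _)
  have h7 : c ^ 2 / C * N ≤ G.card := by
    rw [div_mul_eq_mul_div, div_le_iff₀ hC]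
    have h8 : (c ^ 2 * N) * N ≤ (G.card * C) * N := by nlinarith
    exact le_of_mul_le_mul_right h8 hN0
  refine h7.trans ?_
  rw [Nat.cast_le]
  apply card_le_card
  intro n hn
  rw [hG, mem_filter] at hn
  obtain ⟨hn1, hn2⟩ := hn
  unfold NN at hn1
  rw [mem_filter] at hn1
  rw [mem_filter]
  refine ⟨hn1.1, hn1.2.1, ?_⟩
  unfold RR at hn2
  obtain ⟨x, hx⟩ := card_pos.1 hn2
  rw [mem_filter, mem_Icc] at hx
  refine ⟨x, n - x, by omega, by omega, by omega, ?_⟩
  have h8 : x < 2 ^ x := Nat.lt_two_pow_self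
  have h9 : ((n : ℤ) + fx x).toNat = 2 ^ x + (n - x) := by
    have h10 : fx x = ((2 ^ x : ℕ) : ℤ) - x := by
      unfold fx
      push_cast
      rfl
    rw [h10]
    omega
  rw [← h9]
  exact hx.2

end Run7.h870.RQ
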