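import Pool.Agent.Run7.h870.RQ.Dn
import Pool.Agent.H20R2.EN.FLem

/-!
# Every integer: exponents with no small prime factors
-/

set_option autoImplicit false
set_option linter.all false

namespace Run7.h870.RQ

open Finset
open scoped Classical

/-- the existence of a class, with a bound -/
theorem ex_b (P : ℕ) : ∃ B : ℕ, ∀ r : ℤ, ∃ x : ℕ, 1 ≤ x ∧ x ≤ B ∧ ∀ p : ℕ, p.Prime → p ≤ P → ¬ (p : ℤ) ∣ r + fy x := by
  induction P with
  | zero => exact ⟨1, fun r => ⟨1, le_rfl, le_rfl, fun p hp h => by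
      have := hp.two_le
      omega⟩⟩
  | succ P ih =>
    obtain ⟨B, hB⟩ := ih
    refine ⟨B + 1 * P.factorial, fun r => ?_⟩
    obtain ⟨x, hx, hxB, h⟩ := hB r
    by_cases hp : (P + 1).Prime
    · by_cases h1 : ((P + 1 : ℕ) : ℤ) ∣ r + fy x
      · refine ⟨x + 1 * P.factorial, by omega, by omega, fun p hpp hple => ?_⟩
        rcases Nat.lt_or_ge P p with hlt | hge
        · have hpe : p = P + 1 := by omega
          rw [hpe]
          intro h2
          have h4 := per (P + 1) hp (1 * P.factorial) (by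
            rw [Nat.add_sub_cancel, one_mul]
            exact Nat.dvd_factorial (by have := hp.two_le; omega) le_rfl) x hx
          have h5 : ((P + 1 : ℕ) : ℤ) ∣ (P.factorial : ℤ) := by
            have h6 := dvd_sub h4 (dvd_sub h2 h1)
            have h7 : (2 : ℤ) ^ (x + 1 * P.factorial) - 2 ^ x - (r + fy (x + 1 * P.factorial) - (r + fy x)) = (P.factorial : ℤ) := by
              unfold fy
              push_cast
              ring
            rwa [h7] at h6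
          have h6 : (P + 1) ∣ P.factorial := by exact_mod_cast h5
          have := (Nat.Prime.dvd_factorial hp).1 h6
          omega
        · intro h2
          apply h p hpp hge
          have h3 := dvd_sub h2 (shift p hpp P hge x hx 1)
          have h7 : r + fy (x + 1 * P.factorial) - (fy (x + 1 * P.factorial) - fy x) = r + fy x := by ring
          rwa [h7] at h3
      · refine ⟨x, hx, by omega, fun p hpp hple => ?_⟩
        rcases Nat.lt_or_ge P p with hlt | hge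
        · have hpe : p = P + 1 := by omega
          rw [hpe]
          exact h1
        · exact h p hpp hge
    · refine ⟨x, hx, by omega, fun p hpp hple => h p hpp ?_⟩
      by_contra hc
      have hpe : p = P + 1 := by omega
      rw [hpe] at hpp
      exact hp hpp

/-- the sum of the errors -/
theorem err_sum (P : Finset ℕ) (hP : ∀ p ∈ P, p.Prime) (D : ℕ) (hD : 1 ≤ D) :
    ∑ T ∈ P.powerset.filter (fun T : Finset ℕ => ∏ p ∈ T, p ≤ D), ((∏ p ∈ T, p : ℕ) : ℝ) ≤ 2 * (D : ℝ) ^ 2 := by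
  have hD1 : (1 : ℝ) ≤ D := by exact_mod_cast hD
  have h1 : (P.powerset.filter (fun T : Finset ℕ => ∏ p ∈ T, p ≤ D)).card ≤ (range (D + 1)).card := by
    apply card_le_card_of_injOn (fun T => ∏ p ∈ T, p)
    · intro T hT
      rw [mem_coe, mem_filter] at hT
      rw [mem_coe, mem_range]
      show ∏ p ∈ T, p < D + 1
      omega
    · intro s hs t ht hst
      rw [mem_coe, mem_filter, mem_powerset] at hs ht
      have h3 : (∏ p ∈ s, p).primeFactors = s := Nat.primeFactors_prod fun p hp => hP p (hs.1 hp)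
      have h4 : (∏ p ∈ t, p).primeFactors = t := Nat.primeFactors_prod fun p hp => hP p (ht.1 hp)
      have h5 : ∏ p ∈ s, p = ∏ p ∈ t, p := hst
      rw [← h3, h5, h4]
  rw [card_range] at h1
  have h2 : ∑ T ∈ P.powerset.filter (fun T : Finset ℕ => ∏ p ∈ T, p ≤ D), ((∏ p ∈ T, p : ℕ) : ℝ) ≤
      ∑ T ∈ P.powerset.filter (fun T : Finset ℕ => ∏ p ∈ T, p ≤ D), (D : ℝ) := by
    apply sum_le_sum
    intro T hT
    exact_mod_cast (mem_filter.1 hT).2
  refine h2.trans ?_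
  rw [sum_const, nsmul_eq_mul]
  have h3 : ((P.powerset.filter (fun T : Finset ℕ => ∏ p ∈ T, p ≤ D)).card : ℝ) ≤ D + 1 := by exact_mod_cast h1
  calc _ ≤ ((D : ℝ) + 1) * D := mul_le_mul_of_nonneg_right h3 (by linarith)
    _ ≤ 2 * (D : ℝ) ^ 2 := by nlinarith

/-- **the sieve** -/
theorem sieve : ∃ C0 : ℕ, 1 ≤ C0 ∧ ∃ c : ℝ, 0 < c ∧ ∀ J : ℕ, ∀ (A : ℤ) (x₀ L X : ℕ), 1 ≤ x₀ → (∀ p : ℕ, p.Prime → C0 < p → ¬ p ∣ L) →
    X * c / 2 ^ J - (J + 2) * (2 * (((2 ^ 2 ^ J) ^ (C0 * C0) : ℕ) : ℝ) ^ 2) ≤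
      (((range X).filter (fun t => ∀ p : ℕ, p.Prime → C0 < p → p < 2 ^ 2 ^ J → ¬ Hit A x₀ L p t)).card : ℝ) := by
  obtain ⟨C0, hC0, hF⟩ := Pool.Agent.H20R2.fLem 1
  obtain ⟨c, C, hc, hC, hM⟩ := Pool.Agent.Helper112.LP.Kmt.mertens_prod
  refine ⟨C0, hC0, c / 2, by positivity, fun J A x₀ L X hx₀ hL => ?_⟩
  obtain ⟨P, hP⟩ : ∃ P, P = (range (2 ^ 2 ^ J)).filter (fun p => p.Prime ∧ C0 < p) := ⟨_, rfl⟩
  have hPm : ∀ p ∈ P, p.Prime ∧ C0 < p ∧ p ≤ 2 ^ 2 ^ J := fun p hp => by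
    rw [hP, mem_filter, mem_range] at hp
    exact ⟨hp.2.1, hp.2.2, hp.1.le⟩
  have h1 := hF C0 J C0 P (fun p => 1 / (p : ℝ)) le_rfl le_rfl hPm (by
    intro p hp
    have h2 : (2 : ℝ) ≤ p := by exact_mod_cast (hPm p hp).1.two_le
    refine ⟨by positivity, ?_⟩
    push_cast
    exact one_div_le_one_div_of_le (by linarith) (by linarith)) (range X) (fun _ => 1) (fun p t => Hit A x₀ L p t) X
    (fun T => ((∏ p ∈ T, p : ℕ) : ℝ)) (fun _ _ => zero_le_one) (Nat.cast_nonneg X) (by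
      intro T hT _
      have h2 := cnt_int A x₀ L hx₀ T (fun p hp => ⟨(hPm p (hT hp)).1, hL p (hPm p (hT hp)).1 (hPm p (hT hp)).2.1⟩) X
      refine le_trans (le_of_eq ?_) h2
      rw [sum_const, nsmul_eq_mul, mul_one]
      congr!)
  have h2 := (abs_le.1 h1).1
  rw [sum_const, nsmul_eq_mul, mul_one] at h2
  obtain ⟨V, hV⟩ : ∃ V : ℝ, V = ∏ p ∈ P, (1 - 1 / (p : ℝ)) := ⟨_, rfl⟩
  rw [← hV] at h2
  have hVl : c / 2 ^ J ≤ V := by
    refine (hM J).1.trans ?_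
    obtain ⟨S, hS⟩ : ∃ S, S = (range (2 ^ 2 ^ J)).filter Nat.Prime := ⟨_, rfl⟩
    have hSm : ∀ p ∈ S, 0 ≤ 1 - 1 / (p : ℝ) ∧ 1 - 1 / (p : ℝ) ≤ 1 := by
      intro p hp
      rw [hS, mem_filter] at hp
      have h3 : (2 : ℝ) ≤ p := by exact_mod_cast hp.2.two_le
      have h4 : 1 / (p : ℝ) ≤ 1 := by
        rw [div_le_one (by linarith)]
        linarith
      have h5 : (0 : ℝ) ≤ 1 / (p : ℝ) := by positivity
      constructor <;> linarith
    have hsub : P ⊆ S := by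
      intro p hp
      rw [hP, mem_filter] at hp
      rw [hS, mem_filter]
      exact ⟨hp.1, hp.2.1⟩
    rw [← hS, hV, ← prod_sdiff hsub]
    have h3 : ∏ p ∈ S \ P, (1 - 1 / (p : ℝ)) ≤ 1 := prod_le_one (fun p hp => (hSm p (mem_sdiff.1 hp).1).1) (fun p hp => (hSm p (mem_sdiff.1 hp).1).2)
    have h4 : 0 ≤ ∏ p ∈ P, (1 - 1 / (p : ℝ)) := prod_nonneg fun p hp => (hSm p (hsub hp)).1
    calc _ ≤ 1 * ∏ p ∈ P, (1 - 1 / (p : ℝ)) := mul_le_mul_of_nonneg_right h3 h4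
      _ = _ := one_mul _
  have hX0 : (0 : ℝ) ≤ X := Nat.cast_nonneg X
  have hcJ : 0 < c / 2 ^ J := by positivity
  have hV0 : 0 ≤ V := hcJ.le.trans hVl
  have h3 : (1 / 2 : ℝ) ^ C0 ≤ 1 / 2 := by
    calc (1 / 2 : ℝ) ^ C0 ≤ (1 / 2 : ℝ) ^ 1 := pow_le_pow_of_le_one (by norm_num) (by norm_num) hC0
      _ = 1 / 2 := pow_one _
  have h4 := err_sum P (fun p hp => (hPm p hp).1) ((2 ^ 2 ^ J) ^ (C0 * C0)) (Nat.one_le_pow _ _ (by positivity))
  have h5 : ((J : ℝ) + 2) * ∑ T ∈ P.powerset.filter (fun T : Finset ℕ => ∏ p ∈ T, p ≤ (2 ^ 2 ^ J) ^ (C0 * C0)), ((∏ p ∈ T, p : ℕ) : ℝ) ≤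
      (J + 2) * (2 * (((2 ^ 2 ^ J) ^ (C0 * C0) : ℕ) : ℝ) ^ 2) := mul_le_mul_of_nonneg_left h4 (by positivity)
  have h6 : (1 / 2 : ℝ) ^ C0 * (X * V) ≤ 1 / 2 * (X * V) := mul_le_mul_of_nonneg_right h3 (by positivity)
  have h7 : X * (c / 2 ^ J) ≤ X * V := mul_le_mul_of_nonneg_left hVl hX0
  have h8 : X * (c / 2) / 2 ^ J = 1 / 2 * (X * (c / 2 ^ J)) := by ring
  have h9 : (((range X).filter (fun t => ∀ p ∈ P, ¬ Hit A x₀ L p t)).card : ℝ) ≤
      (((range X).filter (fun t => ∀ p : ℕ, p.Prime → C0 < p → p < 2 ^ 2 ^ J → ¬ Hit A x₀ L p t)).card : ℝ) := by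
    rw [Nat.cast_le]
    apply card_le_card
    intro t ht
    rw [mem_filter] at ht ⊢
    refine ⟨ht.1, fun p hp h1 h2 => ht.2 p ?_⟩
    rw [hP, mem_filter, mem_range]
    exact ⟨h2, hp, h1⟩
  refine le_trans ?_ h9
  rw [h8]
  linarith

end Run7.h870.RQ
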