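import Pool.Agent.Run7.h870.RQ.Rf

/-!
# Every integer: the main theorem
-/

set_option autoImplicit false
set_option linter.all false

namespace Run7.h870.RQ

open Finset Filter
open scoped Classical

/-- **the main theorem for every integer** -/
theorem main2 : ∃ δ c : ℝ, 0 < δ ∧ 0 < c ∧ ∃ n₀ : ℕ, ∀ n : ℕ, n₀ ≤ n →
    c * (n / Real.log n) ≤ (((Icc 1 (n - 1)).filter (fun x => ∀ p : ℕ, p.Prime → p ∣ 2 ^ x + (n - x) → (n : ℝ) ^ δ ≤ p)).card : ℝ) := by
  obtain ⟨C0, hC0, c, hc, hs⟩ := sieve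
  obtain ⟨B, hB⟩ := ex_b C0
  obtain ⟨L, hL⟩ : ∃ L, L = C0.factorial := ⟨_, rfl⟩
  have hL1 : 1 ≤ L := by rw [hL]; exact Nat.factorial_pos C0
  have hLr : (1 : ℝ) ≤ L := by exact_mod_cast hL1
  have hLp : ∀ p : ℕ, p.Prime → C0 < p → ¬ p ∣ L := by
    intro p hp h h2
    rw [hL] at h2
    have := (Nat.Prime.dvd_factorial hp).1 h2
    omega
  obtain ⟨W, hW⟩ : ∃ W, W = 2 * (C0 * C0) + 3 := ⟨_, rfl⟩
  have hW1 : 1 ≤ W := by omega
  have hev : ∀ᶠ n : ℕ in atTop, 16 * (L : ℝ) / c ≤ √(n : ℝ) :=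
    (Real.tendsto_sqrt_atTop.comp tendsto_natCast_atTop_atTop).eventually_ge_atTop _
  obtain ⟨n1, hn1⟩ := eventually_atTop.1 hev
  refine ⟨((4 * W : ℕ) : ℝ)⁻¹, c / (8 * L), by positivity, by positivity, max (max n1 (2 ^ (2 * W))) (max 16 (2 * (1 + B + L))), fun n hn => ?_⟩
  have k1 : n1 ≤ n := by omega
  have k2 : 2 ^ (2 * W) ≤ n := by omega
  have k3 : 16 ≤ n := by omega
  have k4 : 2 * (1 + B + L) ≤ n := by omega
  have hn0 : (0 : ℝ) < n := by exact_mod_cast (by omega : 0 < n)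
  have hn16 : (16 : ℝ) ≤ n := by exact_mod_cast k3
  obtain ⟨m, hm⟩ : ∃ m, m = Nat.log 2 n / (2 * W) := ⟨_, rfl⟩
  have hm1 : 1 ≤ m := by
    rw [hm]
    have h1 : 2 * W ≤ Nat.log 2 n := Nat.le_log_of_pow_le (by norm_num) k2
    exact (Nat.one_le_div_iff (by omega)).2 h1
  obtain ⟨J, hJ⟩ : ∃ J, J = Nat.log 2 m := ⟨_, rfl⟩
  have hJ1 : 2 ^ J ≤ m := by rw [hJ]; exact Nat.pow_log_le_self 2 (by omega)
  have hJ2 : m < 2 ^ (J + 1) := by rw [hJ]; exact Nat.lt_pow_succ_log_self (by norm_num) m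
  obtain ⟨z, hz⟩ : ∃ z, z = 2 ^ 2 ^ J := ⟨_, rfl⟩
  have hz1 : 1 ≤ z := by rw [hz]; exact Nat.one_le_two_pow
  have hmW : m * (2 * W) ≤ Nat.log 2 n := by rw [hm]; exact Nat.div_mul_le_self _ _
  have hzn : z ^ (2 * W) ≤ n := by
    rw [hz, ← pow_mul]
    refine (Nat.pow_le_pow_right (by norm_num) ?_).trans (Nat.pow_log_le_self 2 (by omega))
    exact (Nat.mul_le_mul_right _ hJ1).trans hmW
  have hnz : n ≤ z ^ (4 * W) := by
    rw [hz, ← pow_mul]
    refine (Nat.lt_pow_succ_log_self (by norm_num : 1 < 2) n).le.trans (Nat.pow_le_pow_right (by norm_num) ?_)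
    have h1 : Nat.log 2 n < 2 * W * (Nat.log 2 n / (2 * W) + 1) := Nat.lt_mul_div_succ _ (by omega)
    rw [← hm] at h1
    have h2 : 2 * W * (m + 1) ≤ 2 * W * 2 ^ (J + 1) := Nat.mul_le_mul_left _ hJ2
    have h3 : 2 * W * 2 ^ (J + 1) = 2 ^ J * (4 * W) := by rw [pow_succ]; ring
    omega
  have hδ : (n : ℝ) ^ ((4 * W : ℕ) : ℝ)⁻¹ ≤ z := by
    have h1 : (n : ℝ) ≤ (z : ℝ) ^ (4 * W) := by exact_mod_cast hnz
    have h2 := Real.rpow_le_rpow hn0.le h1 (by positivity : (0 : ℝ) ≤ ((4 * W : ℕ) : ℝ)⁻¹)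
    rwa [Real.pow_rpow_inv_natCast (Nat.cast_nonneg z) (by omega)] at h2
  obtain ⟨X, hX⟩ : ∃ X, X = (n - 1 - B) / L := ⟨_, rfl⟩
  have hXL : X * L ≤ n - 1 - B := by rw [hX]; exact Nat.div_mul_le_self _ _
  have hXL2 : n - 1 - B < L * (X + 1) := by rw [hX]; exact Nat.lt_mul_div_succ _ hL1
  have hXr : (n : ℝ) / (2 * L) ≤ X := by
    rw [div_le_iff₀ (by positivity)]
    have h1 : n ≤ X * (2 * L) := by
      have h2 : L * (X + 1) = X * L + L := by ring
      have h3 : X * (2 * L) = 2 * (X * L) := by ring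
      omega
    exact_mod_cast h1
  obtain ⟨x₀, hx₀, hx₀B, hx₀p⟩ := hB (n : ℤ)
  have hsv := hs J (n : ℤ) x₀ L X hx₀ hLp
  obtain ⟨S, hS⟩ : ∃ S, S = (range X).filter (fun t => ∀ p : ℕ, p.Prime → C0 < p → p < 2 ^ 2 ^ J → ¬ Hit (n : ℤ) x₀ L p t) := ⟨_, rfl⟩
  rw [← hS] at hsv
  -- the number of exponents
  have hcard : S.card ≤ ((Icc 1 (n - 1)).filter (fun x => ∀ p : ℕ, p.Prime → p ∣ 2 ^ x + (n - x) → (n : ℝ) ^ ((4 * W : ℕ) : ℝ)⁻¹ ≤ p)).card := by
    apply card_le_card_of_injOn (fun t => x₀ + t * L)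
    · intro t ht
      rw [mem_coe, hS, mem_filter, mem_range] at ht
      obtain ⟨htX, ht⟩ := ht
      have h1 : t * L ≤ X * L := Nat.mul_le_mul_right _ htX.le
      have hxn : x₀ + t * L ≤ n - 1 := by omega
      rw [mem_coe, mem_filter, mem_Icc]
      have hx1 : 1 ≤ x₀ + t * L := by omega
      refine ⟨⟨hx1, hxn⟩, fun p hp hpd => ?_⟩
      have hpd : p ∣ 2 ^ (x₀ + t * L) + (n - (x₀ + t * L)) := hpd
      have hpd2 : (p : ℤ) ∣ (n : ℤ) + fy (x₀ + t * L) := by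
        have h2 : ((p : ℕ) : ℤ) ∣ ((2 ^ (x₀ + t * L) + (n - (x₀ + t * L)) : ℕ) : ℤ) := by exact_mod_cast hpd
        have h3 : ((2 ^ (x₀ + t * L) + (n - (x₀ + t * L)) : ℕ) : ℤ) = (n : ℤ) + fy (x₀ + t * L) := by
          unfold fy
          have h30 : x₀ + t * L ≤ n := by omega
          rw [Nat.cast_add, Nat.cast_sub h30]
          push_cast
          ring
        rwa [h3] at h2
      by_contra hcon
      have hpz : p < z := by
        have h4 : (p : ℝ) < z := (not_le.1 hcon).trans_le hδ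
        exact_mod_cast h4
      rcases Nat.lt_or_ge C0 p with h5 | h5
      · rw [hz] at hpz
        exact ht p hp h5 hpz hpd2
      · apply hx₀p p hp h5
        have h6 := shift p hp C0 h5 x₀ hx₀ t
        rw [← hL] at h6
        have h7 := dvd_sub hpd2 h6
        have h8 : (n : ℤ) + fy (x₀ + t * L) - (fy (x₀ + t * L) - fy x₀) = (n : ℤ) + fy x₀ := by ring
        rwa [h8] at h7
    · intro t _ t' _ h
      simp only at h
      have h5 : t * L = t' * L := by omega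
      exact Nat.eq_of_mul_eq_mul_right hL1 h5
  refine le_trans ?_ (Nat.cast_le.2 hcard)
  refine le_trans ?_ hsv
  -- the main term
  have h2J : (0 : ℝ) < 2 ^ J := by positivity
  have hzr : (1 : ℝ) ≤ z := by exact_mod_cast hz1
  have hJz : (2 : ℝ) ^ J ≤ z := by
    have : 2 ^ J < z := by rw [hz]; exact Nat.lt_two_pow_self
    exact_mod_cast this.le
  have hJ3 : (J : ℝ) + 2 ≤ 2 * 2 ^ J := by
    have h1 : ∀ j : ℕ, j + 2 ≤ 2 * 2 ^ j := by
      intro j
      induction j with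
      | zero => norm_num
      | succ j ih =>
        rw [pow_succ]
        omega
    exact_mod_cast h1 J
  have hzW : (z : ℝ) ^ W ≤ √(n : ℝ) := by
    apply Real.le_sqrt_of_sq_le
    rw [← pow_mul, mul_comm W 2]
    exact_mod_cast hzn
  have herr : ((J : ℝ) + 2) * (2 * (((2 ^ 2 ^ J) ^ (C0 * C0) : ℕ) : ℝ) ^ 2) * 2 ^ J ≤ X * c / 2 := by
    have h1 : (((2 ^ 2 ^ J) ^ (C0 * C0) : ℕ) : ℝ) = (z : ℝ) ^ (C0 * C0) := by
      rw [hz]
      push_cast
      rfl
    rw [h1]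
    have h3 : (2 * (2 : ℝ) ^ J) * 2 ^ J ≤ 2 * z ^ 2 := by nlinarith
    calc ((J : ℝ) + 2) * (2 * ((z : ℝ) ^ (C0 * C0)) ^ 2) * 2 ^ J ≤ (2 * 2 ^ J) * (2 * ((z : ℝ) ^ (C0 * C0)) ^ 2) * 2 ^ J := by
          apply mul_le_mul_of_nonneg_right _ h2J.le
          exact mul_le_mul_of_nonneg_right hJ3 (by positivity)
      _ = (2 * (2 : ℝ) ^ J) * 2 ^ J * (2 * (z : ℝ) ^ (2 * (C0 * C0))) := by
          rw [← pow_mul, mul_comm (C0 * C0) 2]
          ring
      _ ≤ 2 * z ^ 2 * (2 * (z : ℝ) ^ (2 * (C0 * C0))) := mul_le_mul_of_nonneg_right h3 (by positivity)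
      _ = 4 * (z : ℝ) ^ (2 * (C0 * C0) + 2) := by rw [pow_add]; ring
      _ ≤ 4 * (z : ℝ) ^ W := by
          apply mul_le_mul_of_nonneg_left _ (by norm_num)
          exact pow_le_pow_right₀ hzr (by omega)
      _ ≤ 4 * √(n : ℝ) := mul_le_mul_of_nonneg_left hzW (by norm_num)
      _ ≤ (n : ℝ) / (2 * L) * c / 2 := by
          have h4 := hn1 n k1
          have h5 : √(n : ℝ) * √(n : ℝ) = n := Real.mul_self_sqrt hn0.le
          have h6 : 0 ≤ √(n : ℝ) := Real.sqrt_nonneg _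
          rw [div_le_iff₀ hc] at h4
          have h7 : (n : ℝ) / (2 * L) * c / 2 = n * c / (4 * L) := by
            field_simp
            norm_num
          rw [h7, le_div_iff₀ (by positivity)]
          calc 4 * √(n : ℝ) * (4 * L) = √(n : ℝ) * (16 * L) := by ring
            _ ≤ √(n : ℝ) * (√(n : ℝ) * c) := mul_le_mul_of_nonneg_left h4 h6
            _ = n * c := by rw [← mul_assoc, h5]
      _ ≤ X * c / 2 := by
          apply div_le_div_of_nonneg_right _ (by norm_num)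
          exact mul_le_mul_of_nonneg_right hXr hc.le
  have hJl : (2 : ℝ) ^ J ≤ 2 * Real.log n := by
    have h1 : (2 : ℝ) ^ J ≤ Nat.log 2 n := by
      have h2 : 2 ^ J ≤ Nat.log 2 n := by
        refine hJ1.trans (le_trans ?_ hmW)
        exact Nat.le_mul_of_pos_right _ (by omega)
      exact_mod_cast h2
    have h2 : (2 : ℝ) ^ Nat.log 2 n ≤ n := by exact_mod_cast Nat.pow_log_le_self 2 (by omega : n ≠ 0)
    have h3 := Real.log_le_log (by positivity) h2
    rw [Real.log_pow] at h3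
    have h4 := Real.log_two_gt_d9
    have h5 : (0 : ℝ) ≤ Nat.log 2 n := Nat.cast_nonneg _
    nlinarith
  have hlog : 0 < Real.log n := Real.log_pos (by linarith)
  have hfin : ((J : ℝ) + 2) * (2 * (((2 ^ 2 ^ J) ^ (C0 * C0) : ℕ) : ℝ) ^ 2) ≤ X * c / 2 / 2 ^ J := by
    rw [le_div_iff₀ h2J]
    exact herr
  have h9 : X * c / 2 ^ J = X * c / 2 / 2 ^ J + X * c / 2 / 2 ^ J := by ring
  have h10 : c / (8 * L) * (n / Real.log n) ≤ X * c / 2 / 2 ^ J := by
    calc c / (8 * L) * (n / Real.log n) = (n / (2 * L)) * c / 2 / (2 * Real.log n) := by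
          field_simp
          norm_num
      _ ≤ X * c / 2 / (2 * Real.log n) := by
          apply div_le_div_of_nonneg_right _ (by positivity)
          apply div_le_div_of_nonneg_right _ (by norm_num)
          exact mul_le_mul_of_nonneg_right hXr hc.le
      _ ≤ X * c / 2 / 2 ^ J := div_le_div_of_nonneg_left (by positivity) h2J hJl
  linarith

end Run7.h870.RQ
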